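import Pool.Agent.H92.ST.Defs

/-!
[H92 ST TRA]  Elementary properties of trees.

* `Tr_mono`: induction on `d` (the relation only matters on tuples with entries in `X`).
* `Tr_anti`: `Tr R s (d+1) X → Tr R s d X` for `m ≥ 1` (the first child), iterate.
* `Tr_card`: choose subsets: `d = 0`: a subset with `s` elements; step: the union of the small subtrees of the
  children (the children are replaced by their subsets `Y' a`), `m * (m^d s)` elements.
* `Tr_split`: induction on `d₁ + d₂` (generalising `X`).  `d₁ = d₂ = 0`: cardinalities.  If `d₁ + d₂ = n + 1`, write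
  the tree as children `Y a` with `Tr R (s₁+s₂) n (Y a)`.  Case `d₁ = e + 1`: induction hypothesis for `(e, d₂)` for each child: if
  some child satisfies the second alternative, `Tr R s₂ d₂` of `(Y a).filter (∉ A)`, so of `X.filter (∉ A)` by `Tr_mono`.
  Otherwise all children satisfy the first: they form `Tr R s₁ (e+1)` of `X.filter (∈ A)`.  Case `d₁ = 0`, `d₂ = e + 1`:
  the same with `(0, e)`: if some child satisfies the first alternative, so does `X`; else all satisfy the
  second, giving `Tr R s₂ (e+1)`.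
* `Tr_col`: induction on `Q`: `Q = insert t Q'`, `(q'+1) s = s + q' s`: `Tr_split` with `A = {x | χ x = t}` (`s₁ = s`,
  `s₂ = q' s`, same for `d`).  First alternative: done.  Second: if `X.filter (χ x ≠ t)` is empty, then
  `X.filter (χ x = t) = X` and `Tr_mono`, `Tr_anti` give the claim; otherwise use the induction hypothesis for it.
-/

namespace Pool.Agent.H92.ST

open Filter Pool.Agent.H92.BH

theorem Tr_mono {m : ℕ} {R R' : (Fin m → ℕ) → Prop} {s s' d : ℕ} {X X' : Finset ℕ} (hs : s' ≤ s)
    (hX : X ⊆ X') (hR : ∀ z : Fin m → ℕ, (∀ a, z a ∈ X) → R z → R' z) (h : Tr R s d X) :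
    Tr R' s' d X' := by
  induction d generalizing X X' with
  | zero =>
    have h' : s ≤ X.card := h
    exact (hs.trans h').trans (Finset.card_le_card hX)
  | succ d ih =>
    obtain ⟨Y, h1, h2, h3, h4⟩ := h
    refine ⟨Y, fun a => (h1 a).trans hX, fun a => ?_, h3, fun z hz => ?_⟩
    · exact ih (Finset.Subset.refl _) (fun z hz => hR z (fun b => h1 a (hz b))) (h2 a)
    · exact hR z (fun a => h1 a (hz a)) (h4 z hz)

theorem Tr_anti {m : ℕ} (hm : 1 ≤ m) {R : (Fin m → ℕ) → Prop} {s d d' : ℕ} (hd : d' ≤ d)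
    {X : Finset ℕ} (h : Tr R s d X) : Tr R s d' X := by
  induction d, hd using Nat.le_induction with
  | base => exact h
  | succ d _ ih =>
    apply ih
    obtain ⟨Y, h1, h2, -, -⟩ := h
    exact Tr_mono le_rfl (h1 ⟨0, hm⟩) (fun z _ hz => hz) (h2 ⟨0, hm⟩)

theorem Tr_card {m : ℕ} {R : (Fin m → ℕ) → Prop} {s d : ℕ} {X : Finset ℕ} (h : Tr R s d X) :
    ∃ X' ⊆ X, X'.card ≤ m ^ d * s ∧ Tr R s d X' := by
  classical
  induction d generalizing X with
  | zero =>
    have h' : s ≤ X.card := h
    obtain ⟨X', h1, h2⟩ := Finset.exists_subset_card_eq h'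
    refine ⟨X', h1, by rw [h2]; simp, ?_⟩
    change s ≤ X'.card
    exact h2.ge
  | succ d ih =>
    obtain ⟨Y, h1, h2, h3, h4⟩ := h
    choose Y' g1 g2 g3 using fun a => ih (h2 a)
    refine ⟨Finset.univ.biUnion Y', ?_, ?_, Y', fun a => ?_, g3, ?_, ?_⟩
    · intro x hx
      obtain ⟨a, -, ha⟩ := Finset.mem_biUnion.1 hx
      exact h1 a (g1 a ha)
    · calc (Finset.univ.biUnion Y').card ≤ ∑ a : Fin m, (Y' a).card := Finset.card_biUnion_le
        _ ≤ ∑ _a : Fin m, m ^ d * s := Finset.sum_le_sum fun a _ => g2 a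
        _ = m ^ (d + 1) * s := by
          rw [Finset.sum_const, Finset.card_univ, Fintype.card_fin, smul_eq_mul]; ring
    · exact Finset.subset_biUnion_of_mem Y' (Finset.mem_univ a)
    · intro a b hab x hx y hy
      exact h3 a b hab x (g1 a hx) y (g1 b hy)
    · intro z hz
      exact h4 z (fun a => g1 a (hz a))

open Classical in
private theorem Tr_split_aux {m : ℕ} {R : (Fin m → ℕ) → Prop} {s₁ s₂ : ℕ} (A : Set ℕ) (n : ℕ) :
    ∀ (d₁ d₂ : ℕ) (X : Finset ℕ), d₁ + d₂ = n → Tr R (s₁ + s₂) n X →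
    Tr R s₁ d₁ (X.filter (fun x => x ∈ A)) ∨ Tr R s₂ d₂ (X.filter (fun x => x ∉ A)) := by
  induction n with
  | zero =>
    intro d₁ d₂ X hd h
    obtain ⟨rfl, rfl⟩ : d₁ = 0 ∧ d₂ = 0 := by omega
    have h' : s₁ + s₂ ≤ X.card := h
    have hc := Finset.card_filter_add_card_filter_not (s := X) (fun x => x ∈ A)
    by_cases h1 : s₁ ≤ (X.filter (fun x => x ∈ A)).card
    · exact Or.inl h1
    · right
      change s₂ ≤ (X.filter (fun x => x ∉ A)).card
      omega
  | succ n ih =>
    intro d₁ d₂ X hd h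
    obtain ⟨Y, h1, h2, h3, h4⟩ := h
    rcases d₁ with _ | e
    · rcases d₂ with _ | e
      · omega
      · by_cases hex : ∃ a, Tr R s₁ 0 ((Y a).filter (fun x => x ∈ A))
        · obtain ⟨a, ha⟩ := hex
          exact Or.inl (Tr_mono le_rfl (Finset.filter_subset_filter _ (h1 a))
            (fun z _ hz => hz) ha)
        · right
          push Not at hex
          refine ⟨fun a => (Y a).filter (fun x => x ∉ A),
            fun a => Finset.filter_subset_filter _ (h1 a), fun a => ?_, ?_, ?_⟩
          · exact (ih 0 e (Y a) (by omega) (h2 a)).resolve_left (hex a)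
          · intro a b hab x hx y hy
            exact h3 a b hab x (Finset.mem_filter.1 hx).1 y (Finset.mem_filter.1 hy).1
          · intro z hz
            exact h4 z (fun a => (Finset.mem_filter.1 (hz a)).1)
    · by_cases hex : ∃ a, Tr R s₂ d₂ ((Y a).filter (fun x => x ∉ A))
      · obtain ⟨a, ha⟩ := hex
        exact Or.inr (Tr_mono le_rfl (Finset.filter_subset_filter _ (h1 a))
          (fun z _ hz => hz) ha)
      · left
        push Not at hex
        refine ⟨fun a => (Y a).filter (fun x => x ∈ A),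
          fun a => Finset.filter_subset_filter _ (h1 a), fun a => ?_, ?_, ?_⟩
        · exact (ih e d₂ (Y a) (by omega) (h2 a)).resolve_right (hex a)
        · intro a b hab x hx y hy
          exact h3 a b hab x (Finset.mem_filter.1 hx).1 y (Finset.mem_filter.1 hy).1
        · intro z hz
          exact h4 z (fun a => (Finset.mem_filter.1 (hz a)).1)

open Classical in
theorem Tr_split {m : ℕ} {R : (Fin m → ℕ) → Prop} {s₁ s₂ d₁ d₂ : ℕ} {X : Finset ℕ}
    (h : Tr R (s₁ + s₂) (d₁ + d₂) X) (A : Set ℕ) :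
    Tr R s₁ d₁ (X.filter (fun x => x ∈ A)) ∨ Tr R s₂ d₂ (X.filter (fun x => x ∉ A)) :=
  Tr_split_aux A _ d₁ d₂ X rfl h

open Classical in
theorem Tr_col {m : ℕ} (hm : 1 ≤ m) {R : (Fin m → ℕ) → Prop} {s d : ℕ} {T : Type} (Q : Finset T) (χ : ℕ → T)
    {X : Finset ℕ} (hX : X.Nonempty) (hχ : ∀ x ∈ X, χ x ∈ Q) (h : Tr R (Q.card * s) (Q.card * d) X) :
    ∃ t ∈ Q, Tr R s d (X.filter (fun x => χ x = t)) := by
  induction Q using Finset.induction_on generalizing X with
  | empty =>
    obtain ⟨x, hx⟩ := hX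
    exact absurd (hχ x hx) (Finset.notMem_empty _)
  | insert t Q ht ih =>
    rw [Finset.card_insert_of_notMem ht] at h
    have h' : Tr R (s + Q.card * s) (d + Q.card * d) X := by
      have e1 : (Q.card + 1) * s = s + Q.card * s := by ring
      have e2 : (Q.card + 1) * d = d + Q.card * d := by ring
      rwa [e1, e2] at h
    rcases Tr_split h' {x | χ x = t} with h1 | h1
    · exact ⟨t, Finset.mem_insert_self _ _, Tr_mono le_rfl (fun x hx => by
        obtain ⟨g1, g2⟩ := Finset.mem_filter.1 hx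
        exact Finset.mem_filter.2 ⟨g1, g2⟩) (fun z _ hz => hz) h1⟩
    · by_cases hne : (X.filter (fun x => x ∉ {x | χ x = t})).Nonempty
      · obtain ⟨t', ht', h2⟩ := ih hne (fun x hx => by
          obtain ⟨g1, g2⟩ := Finset.mem_filter.1 hx
          exact (Finset.mem_insert.1 (hχ x g1)).resolve_left g2) h1
        exact ⟨t', Finset.mem_insert_of_mem ht', Tr_mono le_rfl (fun x hx => by
          obtain ⟨g1, g2⟩ := Finset.mem_filter.1 hx
          exact Finset.mem_filter.2 ⟨(Finset.mem_filter.1 g1).1, g2⟩) (fun z _ hz => hz) h2⟩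
      · refine ⟨t, Finset.mem_insert_self _ _, ?_⟩
        have hsub : X ⊆ X.filter (fun x => χ x = t) := by
          intro x hx
          refine Finset.mem_filter.2 ⟨hx, ?_⟩
          by_contra hcon
          exact hne ⟨x, Finset.mem_filter.2 ⟨hx, hcon⟩⟩
        exact Tr_anti hm (Nat.le_add_right d _)
          (Tr_mono (Nat.le_add_right s _) hsub (fun z _ hz => hz) h')

end Pool.Agent.H92.ST
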