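import Pool.Agent.H92.ST.TrB

/-!
[H92 ST TRC]  Trees are partition regular for colourings of the tuples.

Proof of `Tr_rel2`.  Induction on `d₁ + d₂`.  If `d₁ = 0`: `S = s`, `D = 0`: `Tr R s 0 X` says `s ≤ X.card`, which is
`Tr R₁ s 0 X`; same for `d₂ = 0`.  If `d₁ = a + 1`, `d₂ = b + 1`: `(S₁, D₁)` for `(a, b+1)`, `(S₂, D₂)` for `(a+1, b)`, and `(S, D')` from
`Tr_prod` for `(max S₁ S₂, max D₁ D₂)`; take `(S, D' + 1)`.  Given `X` with children `Y a`, `Tr R S D' (Y a)`, and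
products in `R`; `Tr_prod` with `A = {z | R₁ z}` gives `Y'`.  If all products are in `A`: for each `a`,
`Tr R S₁ D₁ (Y' a)` (by `Tr_mono`, `Tr_anti`), so by induction `Tr R₁ s a` or `Tr R₂ s (b+1)` of `Y' a`; if the second
holds for some child we are done (`Tr_mono`), otherwise the children `Y' a` give `Tr R₁ s (a+1) X`.  If no
product is in `A`: all are in `R₂` (as `R z` holds), and the same with the roles exchanged.
`Tr_relq`: induction on the finset `Q` of types: `Tr_rel2` with `R₁ = Rt t` and `R₂ z = ∃ t' ∈ Q', Rt t' z`.  For `Q` empty: `S = 1`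
and `D = 1`: the tree is not empty (`Tr_nonempty`: `Tr R s d X`, `1 ≤ s`, `1 ≤ m` implies `X.Nonempty`) and has a
tuple `z` with `R z`: contradiction.
-/

namespace Pool.Agent.H92.ST

open Filter Pool.Agent.H92.BH

theorem Tr_nonempty {m : ℕ} (hm : 1 ≤ m) {R : (Fin m → ℕ) → Prop} {s d : ℕ} (hs : 1 ≤ s)
    {X : Finset ℕ} (h : Tr R s d X) : X.Nonempty := by
  have h1 : s ≤ X.card := Tr_anti hm (Nat.zero_le d) h
  exact Finset.card_pos.mp (by omega)

theorem Tr_rel2 {m : ℕ} (hm : 1 ≤ m) (s d₁ d₂ : ℕ) : ∃ S D : ℕ,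
    ∀ (R R₁ R₂ : (Fin m → ℕ) → Prop) (X : Finset ℕ), (∀ z, R z → R₁ z ∨ R₂ z) → Tr R S D X →
      Tr R₁ s d₁ X ∨ Tr R₂ s d₂ X := by
  have key : ∀ n d₁ d₂ : ℕ, d₁ + d₂ = n → ∃ S D : ℕ,
      ∀ (R R₁ R₂ : (Fin m → ℕ) → Prop) (X : Finset ℕ), (∀ z, R z → R₁ z ∨ R₂ z) → Tr R S D X →
        Tr R₁ s d₁ X ∨ Tr R₂ s d₂ X := by
    intro n
    induction n with
    | zero =>
      intro d₁ d₂ h
      obtain rfl : d₁ = 0 := by omega
      exact ⟨s, 0, fun R R₁ R₂ X _ hX => Or.inl hX⟩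
    | succ n ih =>
      intro d₁ d₂ h
      rcases d₁ with _ | a
      · exact ⟨s, 0, fun R R₁ R₂ X _ hX => Or.inl hX⟩
      · rcases d₂ with _ | b
        · exact ⟨s, 0, fun R R₁ R₂ X _ hX => Or.inr hX⟩
        · obtain ⟨S₁, D₁, h1⟩ := ih a (b + 1) (by omega)
          obtain ⟨S₂, D₂, h2⟩ := ih (a + 1) b (by omega)
          obtain ⟨S, D', h3⟩ := Tr_prod hm (max S₁ S₂) (max D₁ D₂)
          refine ⟨S, D' + 1, ?_⟩
          rintro R R₁ R₂ X hR ⟨Y, hYX, hYT, hYo, hYR⟩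
          obtain ⟨Y', hY'Y, hY'T, hY'⟩ := h3 R Y hYT {z | R₁ z}
          have hT1 : ∀ c, Tr R S₁ D₁ (Y' c) := fun c =>
            Tr_mono (le_max_left S₁ S₂) (Finset.Subset.refl _) (fun _ _ h => h)
              (Tr_anti hm (le_max_left D₁ D₂) (hY'T c))
          have hT2 : ∀ c, Tr R S₂ D₂ (Y' c) := fun c =>
            Tr_mono (le_max_right S₁ S₂) (Finset.Subset.refl _) (fun _ _ h => h)
              (Tr_anti hm (le_max_right D₁ D₂) (hY'T c))
          have hsub : ∀ c, Y' c ⊆ X := fun c => (hY'Y c).trans (hYX c)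
          have hord : ∀ u v, u < v → ∀ x ∈ Y' u, ∀ y ∈ Y' v, x < y := fun u v huv x hx y hy =>
            hYo u v huv x (hY'Y u hx) y (hY'Y v hy)
          rcases hY' with hA | hA
          · by_cases hc : ∃ c, Tr R₂ s (b + 1) (Y' c)
            · obtain ⟨c, hc⟩ := hc
              exact Or.inr (Tr_mono le_rfl (hsub c) (fun _ _ h => h) hc)
            · push Not at hc
              left
              refine ⟨Y', hsub, fun c => ?_, hord, hA⟩
              exact (h1 R R₁ R₂ (Y' c) hR (hT1 c)).resolve_right (hc c)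
          · by_cases hc : ∃ c, Tr R₁ s (a + 1) (Y' c)
            · obtain ⟨c, hc⟩ := hc
              exact Or.inl (Tr_mono le_rfl (hsub c) (fun _ _ h => h) hc)
            · push Not at hc
              right
              refine ⟨Y', hsub, fun c => ?_, hord, ?_⟩
              · exact (h2 R R₁ R₂ (Y' c) hR (hT2 c)).resolve_left (hc c)
              · intro z hz
                exact (hR z (hYR z fun c => hY'Y c (hz c))).resolve_left (hA z hz)
  exact key (d₁ + d₂) d₁ d₂ rfl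

theorem Tr_relq {m : ℕ} (hm : 1 ≤ m) {T : Type} (Q : Finset T) (s d : ℕ) : ∃ S D : ℕ,
    ∀ (R : (Fin m → ℕ) → Prop) (Rt : T → (Fin m → ℕ) → Prop) (X : Finset ℕ),
      (∀ z, (∀ a, z a ∈ X) → R z → ∃ t ∈ Q, Rt t z) → Tr R S D X → ∃ t ∈ Q, Tr (Rt t) s d X := by
  classical
  induction Q using Finset.induction_on with
  | empty =>
    refine ⟨1, 1, ?_⟩
    rintro R Rt X hR ⟨Y, hYX, hYT, hYo, hYR⟩
    exfalso
    have hne : ∀ a, (Y a).Nonempty := fun a => Tr_nonempty hm le_rfl (hYT a)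
    choose z hz using hne
    obtain ⟨t, ht, _⟩ := hR z (fun a => hYX a (hz a)) (hYR z hz)
    exact absurd ht (Finset.notMem_empty t)
  | insert t Q' htQ ih =>
    obtain ⟨S', D', h1⟩ := ih
    obtain ⟨S, D, h2⟩ := Tr_rel2 hm (max s S') d D'
    refine ⟨S, D, ?_⟩
    intro R Rt X hR hX
    have hX' : Tr (fun z => R z ∧ ∀ a, z a ∈ X) S D X :=
      Tr_mono le_rfl (Finset.Subset.refl _) (fun z hz hRz => ⟨hRz, hz⟩) hX
    have h3 := h2 (fun z => R z ∧ ∀ a, z a ∈ X) (Rt t) (fun z => ∃ t' ∈ Q', Rt t' z) X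
      (by
        rintro z ⟨hz1, hz2⟩
        obtain ⟨u, hu, hzu⟩ := hR z hz2 hz1
        rcases Finset.mem_insert.1 hu with rfl | hu
        · exact Or.inl hzu
        · exact Or.inr ⟨u, hu, hzu⟩) hX'
    rcases h3 with h4 | h4
    · exact ⟨t, Finset.mem_insert_self _ _,
        Tr_mono (le_max_left s S') (Finset.Subset.refl _) (fun _ _ h => h) h4⟩
    · obtain ⟨u, hu, hT⟩ := h1 (fun z => ∃ t' ∈ Q', Rt t' z) Rt X (fun z _ h => h)
        (Tr_mono (le_max_right s S') (Finset.Subset.refl _) (fun _ _ h => h) h4)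
      exact ⟨u, Finset.mem_insert_of_mem hu, hT⟩

end Pool.Agent.H92.ST
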