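import Pool.Agent.H92.ST.TreeZ
import Pool.Agent.H92.BH.RBlkA
import Pool.Agent.H92.BH.SBlk

/-!
[H92 ST BLK]  Blocks containing trees and avoiding the sets of density zero attached to the finite sets which
die at some stage.
-/

namespace Pool.Agent.H92.ST

open Filter Pool.Agent.H92.BH Pool.Agent.H74.BT

theorem Tr_shift {m : ℕ} {𝓑 : Set (Fin m → ℤ)}
    (h𝓑 : ∀ z ∈ 𝓑, ∀ t : ℤ, (fun i => z i + t) ∈ 𝓑) (s d t : ℕ) :
    ∀ X : Finset ℕ, Tr (fun z : Fin m → ℕ => (fun a => (z a : ℤ)) ∈ 𝓑) s d X →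
      Tr (fun z : Fin m → ℕ => (fun a => (z a : ℤ)) ∈ 𝓑) s d (X.image (fun x => x + t)) := by
  classical
  induction d with
  | zero =>
    intro X hX
    show s ≤ (X.image (fun x => x + t)).card
    rw [Finset.card_image_of_injective _ (add_left_injective t)]
    exact hX
  | succ d ih =>
    rintro X ⟨Y, h1, h2, h3, h4⟩
    refine ⟨fun a => (Y a).image (fun x => x + t), fun a => Finset.image_subset_image (h1 a),
      fun a => ih _ (h2 a), ?_, ?_⟩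
    · intro a b hab x hx y hy
      obtain ⟨x', hx', rfl⟩ := Finset.mem_image.mp hx
      obtain ⟨y', hy', rfl⟩ := Finset.mem_image.mp hy
      have := h3 a b hab x' hx' y' hy'
      omega
    · intro z hz
      choose w hw1 hw2 using fun a => Finset.mem_image.mp (hz a)
      have h5 := h𝓑 _ (h4 w hw1) (t : ℤ)
      have h6 : (fun a => (z a : ℤ)) = (fun i => (w i : ℤ) + t) := by
        funext a
        rw [← hw2 a]
        push_cast
        rfl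
      show (fun a => (z a : ℤ)) ∈ 𝓑
      rw [h6]
      exact h5

theorem stepT {m : ℕ} (hm : 1 ≤ m) {𝓑 : Set (Fin m → ℤ)}
    (h𝓑 : ∀ z ∈ 𝓑, ∀ t : ℤ, (fun i => z i + t) ∈ 𝓑) (hmono : ∀ z ∈ 𝓑, StrictMono z)
    (hH : ∀ (J : ℕ) (α : Fin J → ℝ) (ρ : ℝ), 0 < ρ → UBDm (𝓑 ∩ near m α ρ))
    {ι : Type} (P : ι → Finset ℕ → Prop) (I : Finset ι) (G : Finset ℕ) (l : ℕ) :
    ∃ H : Finset ℕ, H.card = 2 ^ l ∧ (∀ g ∈ G, ∀ x ∈ H, g < x) ∧
      (∀ x ∈ H, (G.card + 2 ^ l + 2).factorial ∣ x) ∧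
      (∀ n, (m + 1) * n ≤ l → Tr (fun z : Fin m → ℕ => (fun a => (z a : ℤ)) ∈ 𝓑) n n H) ∧
      ∀ i ∈ I, ∀ F ⊆ G, P i F → ∀ α : Ordinal.{0}, ¬ Sg (P i) α F →
        ∀ y ∈ H, ∃ β < α, ¬ Sg (P i) β (insert y F) := by
  classical
  have hW : 0 < (G.card + 2 ^ l + 2).factorial := Nat.factorial_pos _
  set W := (G.card + 2 ^ l + 2).factorial with hWdef
  obtain ⟨C₀, hC₀1, hC₀2, hC₀3⟩ := treesN hm h𝓑 hmono hH (l / (m + 1)) (l / (m + 1)) W hW
  have hsize : C₀.card ≤ 2 ^ l := by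
    refine hC₀2.trans ?_
    have h1 : m ^ (l / (m + 1)) ≤ 2 ^ (m * (l / (m + 1))) := by
      rw [pow_mul]
      exact Nat.pow_le_pow_left Nat.lt_two_pow_self.le _
    have h2 : l / (m + 1) ≤ 2 ^ (l / (m + 1)) := Nat.lt_two_pow_self.le
    calc m ^ (l / (m + 1)) * (l / (m + 1)) ≤ 2 ^ (m * (l / (m + 1))) * 2 ^ (l / (m + 1)) :=
          Nat.mul_le_mul h1 h2
      _ = 2 ^ ((m + 1) * (l / (m + 1))) := by
          rw [← pow_add]
          congr 1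
          ring
      _ ≤ 2 ^ l := Nat.pow_le_pow_right (by norm_num) (Nat.mul_div_le l (m + 1))
  -- enlarge to `2 ^ l` elements
  obtain ⟨C, hC₀C, hC1, hC2⟩ : ∃ C : Finset ℕ, C₀ ⊆ C ∧ C.card = 2 ^ l ∧ ∀ x ∈ C, W ∣ x := by
    set U : Finset ℕ := C₀ ∪ (Finset.range (2 ^ l)).image (fun q => W * q) with hU
    have hUc : 2 ^ l ≤ U.card := by
      have h1 : ((Finset.range (2 ^ l)).image (fun q => W * q)).card = 2 ^ l := by
        rw [Finset.card_image_of_injective, Finset.card_range]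
        intro a b hab
        exact Nat.eq_of_mul_eq_mul_left hW hab
      rw [← h1]
      exact Finset.card_le_card Finset.subset_union_right
    obtain ⟨C, h1, h2, h3⟩ := Finset.exists_subsuperset_card_eq
      (Finset.subset_union_left : C₀ ⊆ U) hsize hUc
    refine ⟨C, h1, h3, fun x hx => ?_⟩
    rcases Finset.mem_union.mp (h2 hx) with h | h
    · exact hC₀1 x h
    · obtain ⟨q, _, rfl⟩ := Finset.mem_image.mp h
      exact Dvd.intro _ rfl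
  have hZex : ∀ q : ι × Finset ℕ, ∃ Z : Set ℕ, ¬ UD Z ∧
      (P q.1 q.2 → ∀ α : Ordinal.{0}, ¬ Sg (P q.1) α q.2 →
        ∃ β < α, Z = {y | Sg (P q.1) β (insert y q.2)}) := by
    rintro ⟨i, F⟩
    by_cases h : P i F ∧ ∃ α : Ordinal.{0}, ¬ Sg (P i) α F
    · obtain ⟨hg, hex⟩ := h
      obtain ⟨α₀, hα₀, hmin⟩ := WellFounded.has_min (wellFounded_lt (α := Ordinal.{0}))
        {α | ¬ Sg (P i) α F} hex
      have h1 : ¬ Sg (P i) α₀ F := hα₀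
      rw [Sg_iff] at h1
      push Not at h1
      obtain ⟨β, hβ, hβ2⟩ := h1 hg
      refine ⟨{y | Sg (P i) β (insert y F)}, hβ2, fun _ α hα => ⟨β, ?_, rfl⟩⟩
      exact hβ.trans_le (not_lt.mp (hmin α hα))
    · refine ⟨∅, fun hu => Set.not_nonempty_empty (UD_nonempty hu), fun hg α hα => ?_⟩
      exact absurd ⟨hg, α, hα⟩ h
  choose Z hZ1 hZ2 using hZex
  obtain ⟨t, ht1, ht2, ht3⟩ := exists_avoid (I ×ˢ G.powerset) Z
    (fun q _ => hZ1 q) C _ hW (G.sup id + 1)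
  refine ⟨C.image (fun a => a + t), ?_, ?_, ?_, ?_, ?_⟩
  · rw [Finset.card_image_of_injective _ (add_left_injective t)]
    exact hC1
  · intro g hg x hx
    rw [Finset.mem_image] at hx
    obtain ⟨a, _, rfl⟩ := hx
    have h1 : g ≤ G.sup id := Finset.le_sup (f := id) hg
    omega
  · intro x hx
    rw [Finset.mem_image] at hx
    obtain ⟨a, ha, rfl⟩ := hx
    exact dvd_add (hC2 a ha) ht2
  · intro n hn
    have hn2 : n ≤ l / (m + 1) := by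
      rw [Nat.le_div_iff_mul_le (Nat.succ_pos m), mul_comm]
      exact hn
    exact Tr_mono hn2 (Finset.image_subset_image hC₀C) (fun _ _ h => h)
      (Tr_shift h𝓑 _ n t C₀ (Tr_anti hm hn2 hC₀3))
  · intro i hi F hF hg α hα y hy
    rw [Finset.mem_image] at hy
    obtain ⟨a, ha, rfl⟩ := hy
    obtain ⟨β, hβ, e⟩ := hZ2 (i, F) hg α hα
    have h1 : t + a ∉ Z (i, F) := ht3 (i, F)
      (Finset.mem_product.2 ⟨hi, Finset.mem_powerset.2 hF⟩) a ha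
    rw [e, Set.mem_ofPred_eq, add_comm t a] at h1
    exact ⟨β, hβ, h1⟩

theorem blocksT {m : ℕ} (hm : 1 ≤ m) {𝓑 : Set (Fin m → ℤ)}
    (h𝓑 : ∀ z ∈ 𝓑, ∀ t : ℤ, (fun i => z i + t) ∈ 𝓑) (hmono : ∀ z ∈ 𝓑, StrictMono z)
    (hH : ∀ (J : ℕ) (α : Fin J → ℝ) (ρ : ℝ), 0 < ρ → UBDm (𝓑 ∩ near m α ρ))
    {ι : Type} (P : ι → Finset ℕ → Prop) (I : Finset ℕ → Finset ι) :
    ∃ H : ℕ → Finset ℕ, (∀ i j, i < j → ∀ x ∈ H i, ∀ y ∈ H j, x < y) ∧
      (∀ p : ℕ, p.Prime → ∃ a : ℕ, ∀ j, ∀ h ∈ H j, ¬ p ∣ a + h) ∧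
      (∀ j, Tr (fun z : Fin m → ℕ => (fun a => (z a : ℤ)) ∈ 𝓑) j j (H j)) ∧
      ∀ j, ∀ q ∈ I ((Finset.range j).biUnion H), ∀ F : Finset ℕ, (∀ x ∈ F, ∃ i < j, x ∈ H i) →
        P q F → ∀ α : Ordinal.{0}, ¬ Sg (P q) α F →
          ∀ y ∈ H j, ∃ β < α, ¬ Sg (P q) β (insert y F) := by
  obtain ⟨H, h1, h2, h3, h4⟩ := iter_blocks
    (fun G H => (∀ g ∈ G, ∀ x ∈ H, g < x) ∧
      (∀ n, (m + 1) * n ≤ Nat.log 2 H.card →
        Tr (fun z : Fin m → ℕ => (fun a => (z a : ℤ)) ∈ 𝓑) n n H) ∧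
      ∀ i ∈ I G, ∀ F ⊆ G, P i F → ∀ α : Ordinal.{0}, ¬ Sg (P i) α F →
        ∀ y ∈ H, ∃ β < α, ¬ Sg (P i) β (insert y F)) (fun j => (m + 1) * j)
    (fun G l => by
      obtain ⟨H, a1, a2, a3, a4, a5⟩ := stepT hm h𝓑 hmono hH P (I G) G l
      refine ⟨H, a1, Finset.disjoint_left.mpr (fun x hx hx' => lt_irrefl _ (a2 x hx x hx')),
        a3, a2, ?_, a5⟩
      intro n hn
      rw [a1, Nat.log_pow (by norm_num)] at hn
      exact a4 n hn)
  refine ⟨H, ?_, h3, fun j => (h4 j).2.1 j ?_, fun j i hi F hF => (h4 j).2.2 i hi F ?_⟩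
  · intro i j hij x hx y hy
    exact (h4 j).1 x (Finset.mem_biUnion.mpr ⟨i, Finset.mem_range.mpr hij, hx⟩) y hy
  · rw [h1, Nat.log_pow (by norm_num)]
  · intro x hx
    obtain ⟨i, hi, hxi⟩ := hF x hx
    exact Finset.mem_biUnion.mpr ⟨i, Finset.mem_range.mpr hi, hxi⟩

end Pool.Agent.H92.ST
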