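import Pool.Agent.H92.BH.XCore3

/-!
[H92 ST CORE4]  Blocks in groups: a positive proportion of the blocks of a group is met.

Proof.  As the proof of `core3n` (end of `Pool/Agent/H92/BH/XCore3.lean`), from the same `c3step` (which is now public): for every
`n` a finite set `T n` of `N > n` and weights `μ n` with sum `1` such that, for `j ≤ n`, the event `e j N` (the one of
`c3step`; it implies that some `a ∈ H j` has `N + a` prime, because `1 ≤ 2^l θ` by `c3Y1`, so `0 <` the number of hits) has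
`μ n`-measure at least `10^(-24)`.  Let `x g N = #{w < K | ∃ a ∈ H (g K + w), N + a prime}`.  For `g K + K ≤ n`:
`∑ μ n * x g ≥ K 10^(-24)` and `x g ≤ K`, so (Markov) the `μ n`-measure of `{N | 10^(-25) K ≤ x g N}` is at least `10^(-25)`:
otherwise `∑ μ x ≤ 10^(-25) K + 10^(-25) K < 10^(-24) K`.
Events `E g = {N | 10^(-25) K ≤ x g N ∧ ∀ a ≤ g, (∀ i, a ∉ H i) → ¬ (N + a).Prime}`.  Apply `lim_ultra` with
`T' n = T (n K + K)`, `μ' n = μ (n K + K)`: for `g ≤ n`, `g K + K ≤ n K + K`, the measure of `E g` is at least `10^(-25)` (the second condition holds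
for all `N ∈ T' n` since `a ≤ g ≤ n K + K`), and `N ∈ T' n → n < N`.  The rest is as in `core3n`: `B = {a | {N | (N + a).Prime} ∈ V}`; for `g` in the infinite set
`{g | E g ∈ V}` choose `N ∈ E g` which agrees with `B` on all `a` in the blocks `g K + w`, `w < K`.
-/

namespace Pool.Agent.H92.ST

open Finset Filter Pool.Agent.H21.MT Pool.Agent.H92.BH

open Classical in
theorem core4 {K : ℕ} (hK : 0 < K) (H : ℕ → Finset ℕ) (l : ℕ → ℕ)
    (hcard : ∀ j, (H j).card = 2 ^ l j) (hdisj : ∀ i j, i ≠ j → Disjoint (H i) (H j))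
    (hl : ∀ j, 320 * 2 ^ j ≤ l j)
    (hadm : ∀ p : ℕ, p.Prime → ∃ a : ℕ, ∀ j, ∀ h ∈ H j, ¬ p ∣ a + h) :
    ∃ B : Set ℕ, (∀ a ∈ B, ∃ j, a ∈ H j) ∧
      (∀ F : Finset ℕ, {N : ℕ | ∀ a ∈ F, (N + a).Prime ↔ a ∈ B}.Infinite) ∧
      {g : ℕ | (1 / 10 ^ 25 : ℝ) * K ≤
        (((Finset.range K).filter (fun w => ∃ a ∈ H (g * K + w), a ∈ B)).card : ℝ)}.Infinite := by
  classical
  choose T μ hT hTk hμ0 hμ1 hE using c3step H l hcard hdisj hl hadm
  set x : ℕ → ℕ → ℝ := fun g N =>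
    (((Finset.range K).filter (fun w => ∃ a ∈ H (g * K + w), (N + a).Prime)).card : ℝ) with hx
  have hx0 : ∀ g N, 0 ≤ x g N := fun g N => Nat.cast_nonneg _
  have hxK : ∀ g N, x g N ≤ K := by
    intro g N
    simp only [hx]
    have h1 := Finset.card_filter_le (Finset.range K)
      (fun w => ∃ a ∈ H (g * K + w), (N + a).Prime)
    rw [Finset.card_range] at h1
    exact_mod_cast h1
  have hKr : (0 : ℝ) < K := Nat.cast_pos.mpr hK
  -- one block
  have hblk : ∀ n j, j ≤ n → (1 / 10 ^ 24 : ℝ) ≤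
      ∑ N ∈ (T n).filter (fun N => ∃ a ∈ H j, (N + a).Prime), μ n N := by
    intro n j hj
    refine (hE n j hj).trans ?_
    apply Finset.sum_le_sum_of_subset_of_nonneg
    · intro N hN
      rw [Finset.mem_filter] at hN ⊢
      refine ⟨hN.1, ?_⟩
      have h1 := hN.2.1
      have h2 := c3Y1 l j (by have := hl j; omega)
      have h3 : (0 : ℝ) < (((H j).filter (fun a => (N + a).Prime)).card : ℝ) := by
        refine lt_of_lt_of_le ?_ h1
        positivity
      have h4 : 0 < ((H j).filter (fun a => (N + a).Prime)).card := by exact_mod_cast h3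
      obtain ⟨a, ha⟩ := Finset.card_pos.mp h4
      rw [Finset.mem_filter] at ha
      exact ⟨a, ha.1, ha.2⟩
    · intro N _ _
      exact hμ0 n N
  -- the mean of `x g`
  have hmean : ∀ n g, g * K + K ≤ n → (K : ℝ) * (1 / 10 ^ 24) ≤ ∑ N ∈ T n, μ n N * x g N := by
    intro n g hg
    have h1 : ∑ N ∈ T n, μ n N * x g N = ∑ w ∈ Finset.range K,
        ∑ N ∈ (T n).filter (fun N => ∃ a ∈ H (g * K + w), (N + a).Prime), μ n N := by
      have h2 : ∀ N ∈ T n, μ n N * x g N = ∑ w ∈ Finset.range K,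
          if (∃ a ∈ H (g * K + w), (N + a).Prime) then μ n N else 0 := by
        intro N _
        simp only [hx]
        rw [← Finset.sum_filter, Finset.sum_const, nsmul_eq_mul, mul_comm]
      rw [Finset.sum_congr rfl h2, Finset.sum_comm]
      refine Finset.sum_congr rfl (fun w _ => ?_)
      rw [Finset.sum_filter]
    rw [h1]
    have h3 : (K : ℝ) * (1 / 10 ^ 24) = ∑ _w ∈ Finset.range K, (1 / 10 ^ 24 : ℝ) := by
      rw [Finset.sum_const, Finset.card_range, nsmul_eq_mul]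
    rw [h3]
    refine Finset.sum_le_sum (fun w hw => hblk n _ ?_)
    have := Finset.mem_range.mp hw
    omega
  -- Markov
  have hmark : ∀ n g, g * K + K ≤ n → (1 / 10 ^ 25 : ℝ) ≤
      ∑ N ∈ (T n).filter (fun N => (1 / 10 ^ 25 : ℝ) * K ≤ x g N), μ n N := by
    intro n g hg
    by_contra hcon
    push Not at hcon
    have h1 := hmean n g hg
    have h2 : ∑ N ∈ T n, μ n N * x g N ≤
        ∑ N ∈ T n, ((1 / 10 ^ 25 : ℝ) * K * μ n N +
          (if (1 / 10 ^ 25 : ℝ) * K ≤ x g N then μ n N else 0) * K) := by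
      refine Finset.sum_le_sum (fun N _ => ?_)
      have h3 := hμ0 n N
      split_ifs with h4
      · have h5 : μ n N * x g N ≤ μ n N * K := mul_le_mul_of_nonneg_left (hxK g N) h3
        have h6 : 0 ≤ (1 / 10 ^ 25 : ℝ) * K * μ n N := by positivity
        linarith
      · push Not at h4
        have h5 : μ n N * x g N ≤ μ n N * ((1 / 10 ^ 25 : ℝ) * K) :=
          mul_le_mul_of_nonneg_left h4.le h3
        linarith
    rw [Finset.sum_add_distrib, ← Finset.mul_sum, hμ1 n, ← Finset.sum_mul,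
      ← Finset.sum_filter] at h2
    have h7 : (∑ N ∈ (T n).filter (fun N => (1 / 10 ^ 25 : ℝ) * K ≤ x g N), μ n N) * K <
        (1 / 10 ^ 25 : ℝ) * K := mul_lt_mul_of_pos_right hcon hKr
    have h8 : (1 / 10 ^ 25 : ℝ) * K * 1 + (1 / 10 ^ 25 : ℝ) * K < (K : ℝ) * (1 / 10 ^ 24) := by
      have h9 : (K : ℝ) * (1 / 10 ^ 24) - ((1 / 10 ^ 25 : ℝ) * K * 1 + (1 / 10 ^ 25 : ℝ) * K) =
        K * (8 / 10 ^ 25) := by ring
      have h10 : 0 < (K : ℝ) * (8 / 10 ^ 25) := by positivity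
      linarith
    linarith
  obtain ⟨E, hEdef⟩ : ∃ E : ℕ → Set ℕ, ∀ g N, N ∈ E g ↔ ((1 / 10 ^ 25 : ℝ) * K ≤ x g N ∧
      ∀ a ≤ g, (∀ i, a ∉ H i) → ¬ (N + a).Prime) :=
    ⟨fun g => {N : ℕ | (1 / 10 ^ 25 : ℝ) * K ≤ x g N ∧
      ∀ a ≤ g, (∀ i, a ∉ H i) → ¬ (N + a).Prime}, fun _ _ => Iff.rfl⟩
  have hnle : ∀ n : ℕ, n ≤ n * K + K := by
    intro n
    have : n * 1 ≤ n * K := Nat.mul_le_mul_left n hK
    omega
  obtain ⟨V, hV, hinf⟩ := lim_ultra (fun n => T (n * K + K)) (fun n => μ (n * K + K)) (by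
      intro n N hN
      exact lt_of_le_of_lt (hnle n) (hT _ N hN)) (fun n N => hμ0 _ N) (fun n => hμ1 _) E
      (1 / 10 ^ 25) (by positivity) (by
    intro n g hg
    have hgn : g * K + K ≤ n * K + K := Nat.add_le_add_right (Nat.mul_le_mul_right K hg) K
    refine (hmark (n * K + K) g hgn).trans (le_of_eq ?_)
    refine Finset.sum_congr ?_ (fun _ _ => rfl)
    ext N
    rw [mem_filter, mem_filter, hEdef]
    constructor
    · rintro ⟨h1, h2⟩
      exact ⟨h1, h2, fun a ha haH => hTk _ N h1 a ((ha.trans hg).trans (hnle n)) haH⟩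
    · rintro ⟨h1, h2, _⟩
      exact ⟨h1, h2⟩)
  set B : Set ℕ := {a | {N : ℕ | (N + a).Prime} ∈ V} with hB
  have hVinf : ∀ X : Set ℕ, X ∈ V → X.Infinite := by
    intro X hX hfin
    have h1 : Xᶜ ∈ (V : Filter ℕ) := hV (by
      rw [Filter.mem_cofinite, compl_compl]
      exact hfin)
    exact (Ultrafilter.compl_mem_iff_notMem.1 h1) hX
  set G : ℕ → Set ℕ := fun a => {N : ℕ | (N + a).Prime ↔ a ∈ B} with hG
  have hGV : ∀ a, G a ∈ (V : Filter ℕ) := by
    intro a
    by_cases hab : a ∈ B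
    · have h1 : {N : ℕ | (N + a).Prime} ∈ (V : Filter ℕ) := hab
      filter_upwards [h1] with N hN
      exact ⟨fun _ => hab, fun _ => hN⟩
    · have h1 : {N : ℕ | (N + a).Prime}ᶜ ∈ (V : Filter ℕ) :=
        Ultrafilter.compl_mem_iff_notMem.2 hab
      filter_upwards [h1] with N hN
      exact ⟨fun h => absurd h hN, fun h => absurd h hab⟩
  refine ⟨B, ?_, ?_, ?_⟩
  · intro a ha
    by_contra hcon
    push Not at hcon
    obtain ⟨j, hj, haj⟩ := hinf.exists_gt a
    have h1 : E j ∩ {N : ℕ | (N + a).Prime} ∈ (V : Filter ℕ) := Filter.inter_mem hj ha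
    obtain ⟨N, hN1, hN2⟩ := Filter.nonempty_of_mem h1
    exact ((hEdef j N).1 hN1).2 a haj.le hcon hN2
  · intro F
    apply hVinf
    have h1 : (⋂ a ∈ F, G a) ∈ (V : Filter ℕ) := (Filter.biInter_finset_mem F).2 (fun a _ => hGV a)
    refine Filter.mem_of_superset h1 ?_
    intro N hN a ha
    rw [Set.mem_iInter₂] at hN
    exact hN a ha
  · refine hinf.mono ?_
    intro g hg
    have hg : E g ∈ V := hg
    rw [Set.mem_ofPred_eq]
    have hcap : E g ∩ ⋂ a ∈ (Finset.range K).biUnion (fun w => H (g * K + w)), G a ∈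
        (V : Filter ℕ) :=
      Filter.inter_mem hg ((Filter.biInter_finset_mem _).2 (fun a _ => hGV a))
    obtain ⟨N, hN1, hN2⟩ := Filter.nonempty_of_mem hcap
    rw [Set.mem_iInter₂] at hN2
    obtain ⟨hN1, _⟩ := (hEdef g N).1 hN1
    refine hN1.trans (le_of_eq ?_)
    simp only [hx]
    congr 1
    refine congrArg Finset.card ?_
    apply filter_congr
    intro w hw
    constructor
    · rintro ⟨a, ha, ha'⟩
      exact ⟨a, ha, (hN2 a (Finset.mem_biUnion.mpr ⟨w, hw, ha⟩)).1 ha'⟩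
    · rintro ⟨a, ha, ha'⟩
      exact ⟨a, ha, (hN2 a (Finset.mem_biUnion.mpr ⟨w, hw, ha⟩)).2 ha'⟩

end Pool.Agent.H92.ST
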