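import Pool.Agent.H92.BH.GDefs

/-!
MP_8923e7_nt, strong form of BohrTuples: definitions.

For almost all `0 < a_1 < ... < a_k` in a Bohr neighbourhood of `0` the set `{0, a_1, ..., a_k}` lies in an
extension family all of whose members are shattered in exact form by the primes of one colour, with nothing in
the gaps `(0, a_1)`, `(a_2, a_3)`, `(a_4, a_5)`, ...
-/

namespace Pool.Agent.H92.ST

open Filter Pool.Agent.H92.BH

/-- the union of the gaps number `0, 2, 4, ...` of the tuple `z` -/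
def gaps {m : ℕ} (z : Fin m → ℕ) : Set ℕ :=
  {x | ∃ a b : Fin m, (a : ℕ) % 2 = 0 ∧ (b : ℕ) = a + 1 ∧ z a < x ∧ x < z b}

/-- all patterns on `F`, with nothing else in `E`, are realised infinitely often by the primes of colour
`i` -/
def ShE {r : ℕ} (c : ℕ → Fin r) (i : Fin r) (E : Set ℕ) (F : Finset ℕ) : Prop :=
  ∀ F' : Finset ℕ, F' ⊆ F →
    {N : ℕ | ∀ a, (a ∈ F ∨ a ∈ E) → (((N + a).Prime ∧ c (N + a) = i) ↔ a ∈ F')}.Infinite

/-- the set of the entries of `z` belongs to a family of finite sets, all exact patterns on which, with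
nothing else in the even gaps of `z`, occur infinitely often for the primes of colour `i`, and each of which
has extensions by a set of positive upper density -/
def FamT {r m : ℕ} (c : ℕ → Fin r) (z : Fin m → ℕ) : Prop :=
  ∃ (i : Fin r) (𝓕 : Set (Finset ℕ)), Finset.univ.image z ∈ 𝓕 ∧
    ∀ F ∈ 𝓕, ShE c i (gaps z) F ∧ UD {y | insert y F ∈ 𝓕}

/-- `X` contains an `m`-ary tree of depth `d` for the relation `R`, with leaf clusters of size `s` -/
def Tr {m : ℕ} (R : (Fin m → ℕ) → Prop) (s : ℕ) : ℕ → Finset ℕ → Prop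
  | 0, X => s ≤ X.card
  | d + 1, X => ∃ Y : Fin m → Finset ℕ, (∀ a, Y a ⊆ X) ∧ (∀ a, Tr R s d (Y a)) ∧
      (∀ a b, a < b → ∀ x ∈ Y a, ∀ y ∈ Y b, x < y) ∧ ∀ z : Fin m → ℕ, (∀ a, z a ∈ Y a) → R z

/-- the pattern of `ω` on `z` is `τ`, and `ω` does not meet the even gaps of `z` -/
def Ptn {m : ℕ} (ω : Set ℕ) (τ : Set (Fin m)) (z : Fin m → ℕ) : Prop :=
  (∀ a, z a ∈ ω ↔ a ∈ τ) ∧ ∀ x ∈ gaps z, x ∉ ω

/-- the set `J` contains in the blocks `H j` trees of every depth with leaf clusters of every size -/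
def Lg {m : ℕ} (R : (Fin m → ℕ) → Prop) (H : ℕ → Finset ℕ) (J : Set ℕ) : Prop :=
  ∀ n : ℕ, ∃ j, n ≤ j ∧ ∃ X : Finset ℕ, X ⊆ H j ∧ ↑X ⊆ J ∧ Tr R n n X

/-- `ω` splits `J` -/
def Spl (ω J : Set ℕ) : Prop := (J ∩ ω).Infinite ∧ (J \ ω).Infinite

end Pool.Agent.H92.ST
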