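import Pool.Agent.H92.ST.TrA

/-!
[H92 ST EXT]  Extraction of the leaf clusters.

Proof.  Induction on `d`, for all `X`.
`d = 0`: `s + 2 ≤ X.card`; remove the minimum and the maximum of `X` and take `V` with `s` elements in the rest; `𝒱 = {V}`; the
bounds are the minimum and the maximum of `X`.  The last property is void: the filter has at most `1 = (m-1)^0`
elements.
Step: children `Y a`, with `𝒱 a` by induction; `𝒱` is the union.  `V ∈ 𝒱 a`, `V' ∈ 𝒱 b`, `a ≠ b`: disjoint as `Y a`, `Y b`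
are (order), and `V.card = s ≥ 1`, so the families are disjoint and `𝒱.card = m * m^d`.  Lower bound: the element `x ∈ Y 0` of the
first child (`m ≥ 1`; elements of the later children are larger than those of `Y 0`); upper bound: the one of the last child.
Last property: let `ω`, with more than `(m-1)^(d+1)` clusters met.  For each child `a` the hypothesis on `ω` for `Y a` and `𝒱 a` holds:
`x ∈ ω` between two elements of `Y a` lies in some `V ∈ 𝒱 b`, `V ⊆ Y b`, and `b = a` by the order of the children.  If some child has more than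
`(m-1)^d` clusters met: induction (`z` has its entries in `Y a ⊆ X`).  Otherwise all children have at least one cluster met: if
one child has none, the number is at most `(m-1) * (m-1)^d`.  Choose `z a ∈ Y a`:
 `a` even: if `a ∈ τ`, the maximum of the finite set `{x ∈ Y a | x ∈ ω}` (not empty); otherwise the upper bound element of the
 child (larger than all clusters of `𝒱 a`; it is not in `ω`: it is between elements of `Y a`, so it would be in a cluster of `𝒱 a`);
 `a` odd: if `a ∈ τ`, the minimum of `{x ∈ Y a | x ∈ ω}`, otherwise the lower bound element.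
`R z` holds (product of the children).  `Ptn`: the pattern is clear.  Let `x ∈ ω` be in the gap between `z a`, `z b`, `a` even, `b = a + 1`.  It
is between elements of `X`, so in some `V ∈ 𝒱 e`, `V ⊆ Y e`; `e < a` or `e > b` is impossible by the order of the children; `e = a`: `x > z a` contradicts the
choice of `z a` (maximum of `ω` in `Y a`, or above all the clusters); `e = b`: the same.
-/

namespace Pool.Agent.H92.ST

open Filter Pool.Agent.H92.BH

open Classical in
theorem extract {m : ℕ} (hm : 1 ≤ m) {R : (Fin m → ℕ) → Prop} {s : ℕ} (hs : 1 ≤ s) (d : ℕ)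
    (X : Finset ℕ) (h : Tr R (s + 2) d X) :
    ∃ 𝒱 : Finset (Finset ℕ), 𝒱.card = m ^ d ∧ (∀ V ∈ 𝒱, V ⊆ X ∧ V.card = s) ∧
      (∀ V ∈ 𝒱, ∀ V' ∈ 𝒱, V ≠ V' → Disjoint V V') ∧
      (∃ x ∈ X, ∀ V ∈ 𝒱, ∀ y ∈ V, x < y) ∧ (∃ x ∈ X, ∀ V ∈ 𝒱, ∀ y ∈ V, y < x) ∧
      ∀ ω : Set ℕ, (∀ x ∈ ω, (∃ y ∈ X, y ≤ x) → (∃ y ∈ X, x ≤ y) → ∃ V ∈ 𝒱, x ∈ V) →
        (m - 1) ^ d < (𝒱.filter (fun V => ∃ x ∈ V, x ∈ ω)).card →
        ∀ τ : Set (Fin m), ∃ z : Fin m → ℕ, (∀ a, z a ∈ X) ∧ R z ∧ Ptn ω τ z := by
  induction d generalizing X with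
  | zero =>
    have hX : s + 2 ≤ X.card := h
    have hne : X.Nonempty := Finset.card_pos.mp (by omega)
    have hc : s ≤ ((X.erase (X.min' hne)).erase (X.max' hne)).card := by
      have h1 := Finset.pred_card_le_card_erase (s := X) (a := X.min' hne)
      have h2 := Finset.pred_card_le_card_erase (s := X.erase (X.min' hne)) (a := X.max' hne)
      omega
    obtain ⟨V, hV, hVc⟩ := Finset.exists_subset_card_eq hc
    have hVX : V ⊆ X := fun y hy => Finset.mem_of_mem_erase (Finset.mem_of_mem_erase (hV hy))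
    refine ⟨{V}, by simp, ?_, ?_, ?_, ?_, ?_⟩
    · intro V' hV'
      rw [Finset.mem_singleton] at hV'
      subst hV'
      exact ⟨hVX, hVc⟩
    · intro V1 h1 V2 h2 h12
      rw [Finset.mem_singleton] at h1 h2
      exact absurd (h1.trans h2.symm) h12
    · refine ⟨X.min' hne, X.min'_mem hne, ?_⟩
      intro V' hV' y hy
      rw [Finset.mem_singleton] at hV'
      subst hV'
      have h1 := Finset.ne_of_mem_erase (Finset.mem_of_mem_erase (hV hy))
      exact lt_of_le_of_ne (X.min'_le y (hVX hy)) (fun h => h1 h.symm)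
    · refine ⟨X.max' hne, X.max'_mem hne, ?_⟩
      intro V' hV' y hy
      rw [Finset.mem_singleton] at hV'
      subst hV'
      have h1 := Finset.ne_of_mem_erase (hV hy)
      exact lt_of_le_of_ne (X.le_max' y (hVX hy)) h1
    · intro ω _ hcard
      exfalso
      have h1 := Finset.card_filter_le ({V} : Finset (Finset ℕ)) (fun V => ∃ x ∈ V, x ∈ ω)
      rw [Finset.card_singleton] at h1
      rw [pow_zero] at hcard
      omega
  | succ d ih =>
    obtain ⟨Y, hYX, hYT, hYo, hYR⟩ := h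
    choose 𝒱 h1 h2 h3 h4 h5 h6 using fun a => ih (Y a) (hYT a)
    have hmem : ∀ V, V ∈ (Finset.univ : Finset (Fin m)).biUnion 𝒱 ↔ ∃ a, V ∈ 𝒱 a := by
      intro V
      simp
    have hord : ∀ a b x, x ∈ Y a → x ∈ Y b → a = b := by
      intro a b x hxa hxb
      rcases lt_trichotomy a b with h | h | h
      · exact absurd (hYo a b h x hxa x hxb) (lt_irrefl x)
      · exact h
      · exact absurd (hYo b a h x hxb x hxa) (lt_irrefl x)
    have hVne : ∀ a, ∀ V ∈ 𝒱 a, V.Nonempty := by
      intro a V hV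
      apply Finset.card_pos.mp
      rw [(h2 a V hV).2]
      omega
    refine ⟨(Finset.univ : Finset (Fin m)).biUnion 𝒱, ?_, ?_, ?_, ?_, ?_, ?_⟩
    · rw [Finset.card_biUnion]
      · rw [Finset.sum_congr rfl (fun a _ => h1 a), Finset.sum_const, Finset.card_univ,
          Fintype.card_fin, smul_eq_mul, pow_succ, mul_comm]
      · intro a _ b _ hab
        show Disjoint (𝒱 a) (𝒱 b)
        rw [Finset.disjoint_left]
        intro V hVa hVb
        obtain ⟨y, hy⟩ := hVne a V hVa
        exact hab (hord a b y ((h2 a V hVa).1 hy) ((h2 b V hVb).1 hy))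
    · intro V hV
      obtain ⟨a, ha⟩ := (hmem V).1 hV
      exact ⟨(h2 a V ha).1.trans (hYX a), (h2 a V ha).2⟩
    · intro V hV V' hV' hne
      obtain ⟨a, ha⟩ := (hmem V).1 hV
      obtain ⟨b, hb⟩ := (hmem V').1 hV'
      by_cases hab : a = b
      · subst hab
        exact h3 a V ha V' hb hne
      · rw [Finset.disjoint_left]
        intro x hx hx'
        exact hab (hord a b x ((h2 a V ha).1 hx) ((h2 b V' hb).1 hx'))
    · obtain ⟨x, hx, hx'⟩ := h4 ⟨0, hm⟩
      refine ⟨x, hYX _ hx, ?_⟩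
      intro V hV y hy
      obtain ⟨b, hb⟩ := (hmem V).1 hV
      by_cases h0 : b = ⟨0, hm⟩
      · subst h0
        exact hx' V hb y hy
      · refine hYo ⟨0, hm⟩ b ?_ x hx y ((h2 b V hb).1 hy)
        rw [Fin.lt_def]
        have h7 : (b : ℕ) ≠ 0 := fun h => h0 (Fin.ext h)
        show 0 < (b : ℕ)
        omega
    · obtain ⟨x, hx, hx'⟩ := h5 ⟨m - 1, by omega⟩
      refine ⟨x, hYX _ hx, ?_⟩
      intro V hV y hy
      obtain ⟨b, hb⟩ := (hmem V).1 hV
      by_cases h0 : b = ⟨m - 1, by omega⟩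
      · subst h0
        exact hx' V hb y hy
      · refine hYo b ⟨m - 1, by omega⟩ ?_ y ((h2 b V hb).1 hy) x hx
        rw [Fin.lt_def]
        have h7 : (b : ℕ) ≠ m - 1 := fun h => h0 (Fin.ext h)
        have h8 := b.isLt
        show (b : ℕ) < m - 1
        omega
    · intro ω hω hcard τ
      have hωa : ∀ a, ∀ x ∈ ω, (∃ y ∈ Y a, y ≤ x) → (∃ y ∈ Y a, x ≤ y) → ∃ V ∈ 𝒱 a, x ∈ V := by
        rintro a x hx ⟨y, hy, hyx⟩ ⟨y', hy', hxy'⟩
        obtain ⟨V, hV, hxV⟩ := hω x hx ⟨y, hYX a hy, hyx⟩ ⟨y', hYX a hy', hxy'⟩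
        obtain ⟨b, hb⟩ := (hmem V).1 hV
        have hxb : x ∈ Y b := (h2 b V hb).1 hxV
        rcases lt_trichotomy a b with h | h | h
        · exact absurd (hYo a b h y' hy' x hxb) (not_lt.mpr hxy')
        · subst h
          exact ⟨V, hb, hxV⟩
        · exact absurd (hYo b a h x hxb y hy) (not_lt.mpr hyx)
      by_cases hbig : ∃ a, (m - 1) ^ d < ((𝒱 a).filter (fun V => ∃ x ∈ V, x ∈ ω)).card
      · obtain ⟨a, ha⟩ := hbig
        obtain ⟨z, hz1, hz2, hz3⟩ := h6 a ω (hωa a) ha τ
        exact ⟨z, fun b => hYX a (hz1 b), hz2, hz3⟩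
      push Not at hbig
      have hall : ∀ a, ∃ V ∈ 𝒱 a, ∃ x ∈ V, x ∈ ω := by
        by_contra hcon
        push Not at hcon
        obtain ⟨a0, ha0⟩ := hcon
        have h7 : ((𝒱 a0).filter (fun V => ∃ x ∈ V, x ∈ ω)).card = 0 := by
          rw [Finset.card_eq_zero, Finset.filter_eq_empty_iff]
          rintro V hV ⟨x, hx, hxω⟩
          exact ha0 V hV x hx hxω
        have h8 : (((Finset.univ : Finset (Fin m)).biUnion 𝒱).filter
            (fun V => ∃ x ∈ V, x ∈ ω)).card ≤
            ∑ a : Fin m, ((𝒱 a).filter (fun V => ∃ x ∈ V, x ∈ ω)).card := by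
          rw [Finset.filter_biUnion]
          exact Finset.card_biUnion_le
        have h9 : ∑ a : Fin m, ((𝒱 a).filter (fun V => ∃ x ∈ V, x ∈ ω)).card ≤
            (m - 1) * (m - 1) ^ d := by
          rw [← Finset.add_sum_erase _ _ (Finset.mem_univ a0), h7, zero_add]
          refine (Finset.sum_le_card_nsmul _ _ _ (fun a _ => hbig a)).trans ?_
          rw [Finset.card_erase_of_mem (Finset.mem_univ a0), Finset.card_univ, Fintype.card_fin,
            smul_eq_mul]
        rw [pow_succ, mul_comm] at hcard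
        omega
      have hne : ∀ a, ((Y a).filter (fun x => x ∈ ω)).Nonempty := by
        intro a
        obtain ⟨V, hV, x, hx, hxω⟩ := hall a
        exact ⟨x, Finset.mem_filter.mpr ⟨(h2 a V hV).1 hx, hxω⟩⟩
      have hz : ∀ a : Fin m, ∃ z ∈ Y a, (z ∈ ω ↔ a ∈ τ) ∧
          ((a : ℕ) % 2 = 0 → ∀ x ∈ Y a, x ∈ ω → x ≤ z) ∧
          ((a : ℕ) % 2 = 1 → ∀ x ∈ Y a, x ∈ ω → z ≤ x) := by
        intro a
        by_cases haτ : a ∈ τ
        · rcases Nat.mod_two_eq_zero_or_one (a : ℕ) with hpar | hpar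
          · have h7 := Finset.max'_mem _ (hne a)
            rw [Finset.mem_filter] at h7
            refine ⟨_, h7.1, ⟨fun _ => haτ, fun _ => h7.2⟩, fun _ x hx hxω =>
              Finset.le_max' _ x (Finset.mem_filter.mpr ⟨hx, hxω⟩), fun h => by omega⟩
          · have h7 := Finset.min'_mem _ (hne a)
            rw [Finset.mem_filter] at h7
            refine ⟨_, h7.1, ⟨fun _ => haτ, fun _ => h7.2⟩, fun h => by omega, fun _ x hx hxω =>
              Finset.min'_le _ x (Finset.mem_filter.mpr ⟨hx, hxω⟩)⟩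
        · rcases Nat.mod_two_eq_zero_or_one (a : ℕ) with hpar | hpar
          · obtain ⟨x, hx, hx'⟩ := h5 a
            refine ⟨x, hx, ⟨fun hxω => ?_, fun h => absurd h haτ⟩, fun _ y hy hyω => ?_,
              fun h => by omega⟩
            · obtain ⟨V, hV, hxV⟩ := hωa a x hxω ⟨x, hx, le_rfl⟩ ⟨x, hx, le_rfl⟩
              exact absurd (hx' V hV x hxV) (lt_irrefl x)
            · obtain ⟨V, hV, hyV⟩ := hωa a y hyω ⟨y, hy, le_rfl⟩ ⟨y, hy, le_rfl⟩
              exact (hx' V hV y hyV).le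
          · obtain ⟨x, hx, hx'⟩ := h4 a
            refine ⟨x, hx, ⟨fun hxω => ?_, fun h => absurd h haτ⟩, fun h => by omega,
              fun _ y hy hyω => ?_⟩
            · obtain ⟨V, hV, hxV⟩ := hωa a x hxω ⟨x, hx, le_rfl⟩ ⟨x, hx, le_rfl⟩
              exact absurd (hx' V hV x hxV) (lt_irrefl x)
            · obtain ⟨V, hV, hyV⟩ := hωa a y hyω ⟨y, hy, le_rfl⟩ ⟨y, hy, le_rfl⟩
              exact (hx' V hV y hyV).le
      choose z hz1 hz2 hz3 hz4 using hz
      refine ⟨z, fun a => hYX a (hz1 a), hYR z hz1, hz2, ?_⟩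
      rintro x ⟨a, b, hpar, hab, hax, hxb⟩ hxω
      obtain ⟨V, hV, hxV⟩ := hω x hxω ⟨z a, hYX a (hz1 a), hax.le⟩ ⟨z b, hYX b (hz1 b), hxb.le⟩
      obtain ⟨e, he⟩ := (hmem V).1 hV
      have hxe : x ∈ Y e := (h2 e V he).1 hxV
      have h7 : ¬ e < a := fun h => absurd (hYo e a h x hxe (z a) (hz1 a)) (not_lt.mpr hax.le)
      have h8 : ¬ b < e := fun h => absurd (hYo b e h (z b) (hz1 b) x hxe) (not_lt.mpr hxb.le)
      rw [Fin.lt_def] at h7 h8
      have h9 : (e : ℕ) = a ∨ (e : ℕ) = b := by omega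
      rcases h9 with h9 | h9
      · have h10 : e = a := Fin.ext h9
        subst h10
        exact absurd (hz3 e hpar x hxe hxω) (not_le.mpr hax)
      · have h10 : e = b := Fin.ext h9
        subst h10
        exact absurd (hz4 e (by omega) x hxe hxω) (not_le.mpr hxb)

end Pool.Agent.H92.ST
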