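import Pool.Agent.H92.ST.TrC

/-!
[H92 ST FUSEA]  Fusion, first tuple.

Proof.  `hdisj`: the blocks are disjoint (from `hinc`).  `Spl_mono`: `J' ⊆ J → Spl ω J' → Spl ω J`.  `Lg_cut`: as `Lrg_cut` in
`Pool/Agent/H92/BH/XFuse.lean`: `Lg R H J → Lg R H (J ∩ {x | ∀ i ≤ m, x ∉ H i})`.
Suppose the claim is false.  Then for all `j`, all `z` with entries in `H j ∩ A`, `R₀ z`, and all `K ⊆ A` with `Lg R₀ H K` there are `τ` and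
`K' ⊆ K`, `Lg R₀ H K'`, with no `ω ∈ Ω`, `Ptn ω τ z ∧ Spl ω K'` (apply the negation to `K` cut beyond block `j`).  Iterating over a finite
set `E` of tuples (induction on `E`, as `shrink` in XFuse.lean, using `Spl_mono`): for `K ⊆ A` large there are `K' ⊆ K` large and `τ z` for
`z ∈ E` such that for `z ∈ E` no `ω ∈ Ω` has `Ptn ω (τ z) z ∧ Spl ω K'`.
Step: given `K ⊆ A` large and `n`: let `(S, D)` be given by `Tr_relq` for `Q = univ : Finset (Set (Fin m))` and `(n, n)`.  Choose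
`j ≥ n` and `X ⊆ H j`, `↑X ⊆ K` with `Tr R₀ S D X` (from `Lg` with `max`, `Tr_mono`, `Tr_anti`), `E = {z ∈ Fintype.piFinset (fun _ => X) | R₀ z}`, `K'` and `τ z` as above; cut `K'`
beyond block `j`; `Tr_relq` with `Rt τ z = (R₀ z ∧ ¬ ∃ ω ∈ Ω, Ptn ω τ z ∧ Spl ω K')` gives `τ` with `Tr (Rt τ) n n X`.
Iterate (as `bad_seq` in XFuse.lean): `K 0 = A`, `X n ⊆ H (j n) ∩ K n`, `n ≤ j n`, `K (n+1) ⊆ K n`, `j` strictly increasing (since `K (n+1)` is beyond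
block `j n`), `τ n`.  Pigeonhole: `τ n = τ` for all `n` in an infinite set `I` (`Finite.exists_infinite_fiber`).
`J = ⋃_{n ∈ I} X n ⊆ A`, `R z = (R₀ z ∧ ∃ n ∈ I, (∀ a, z a ∈ X n) ∧ ¬ ∃ ω ∈ Ω, Ptn ω τ z ∧ Spl ω (K (n+1)))`.  `Lg R H J`: the trees
`X n`, `n ∈ I` (`Tr_mono`).  `hΩ` gives `ω ∈ Ω`, `z` with `R z`, `Ptn ω τ z`, `Spl ω J`.  Let `n ∈ I` be given by `R z`.  `J \ K (n+1)` is
contained in the finite set `⋃_{n' ≤ n} X n'` (`X n' ⊆ K n' ⊆ K (n+1)` for `n' > n`), so `Spl ω (K (n+1))`: contradiction.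
-/

namespace Pool.Agent.H92.ST

open Filter Pool.Agent.H92.BH

theorem Spl_mono {ω J J' : Set ℕ} (h : J' ⊆ J) (hS : Spl ω J') : Spl ω J :=
  ⟨hS.1.mono (Set.inter_subset_inter_left _ h), hS.2.mono (Set.sdiff_subset_sdiff_left h)⟩

theorem Lg_cut {m : ℕ} {R : (Fin m → ℕ) → Prop} {H : ℕ → Finset ℕ}
    (hdisj : ∀ i j, i ≠ j → Disjoint (H i) (H j)) {J : Set ℕ} (hJ : Lg R H J) (n : ℕ)
    (hm : 1 ≤ m) : Lg R H (J ∩ {x | ∀ i ≤ n, x ∉ H i}) := by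
  intro K
  obtain ⟨j, hj, X, hX1, hX2, hX3⟩ := hJ (max K (n + 1))
  refine ⟨j, (le_max_left _ _).trans hj, X, hX1, ?_, ?_⟩
  · intro x hx
    refine ⟨hX2 hx, fun i hi hxi => ?_⟩
    have h1 : n + 1 ≤ j := (le_max_right _ _).trans hj
    exact Finset.disjoint_left.mp (hdisj i j (by omega)) hxi (hX1 hx)
  · exact Tr_anti hm (le_max_left _ _) (Tr_mono (le_max_left _ _) subset_rfl (fun _ _ h => h) hX3)

/-- simultaneous shrinking for a finite set of bad objects -/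
theorem shrinkT {α T : Type} (Ω : Set (Set ℕ)) (Lgp : Set ℕ → Prop) (A : Set ℕ) (Q : Set T)
    (P : Set ℕ → T → α → Prop) (E : Finset α)
    (hE : ∀ e ∈ E, ∀ K ⊆ A, Lgp K → ∃ t ∈ Q, ∃ K' ⊆ K, Lgp K' ∧
      ¬ ∃ ω ∈ Ω, P ω t e ∧ Spl ω K') :
    ∀ K ⊆ A, Lgp K → ∃ K' ⊆ K, Lgp K' ∧ ∀ e ∈ E, ∃ t ∈ Q,
      ¬ ∃ ω ∈ Ω, P ω t e ∧ Spl ω K' := by
  classical
  induction E using Finset.induction_on with
  | empty =>
    intro K _ hK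
    exact ⟨K, subset_rfl, hK, by simp⟩
  | insert e E he ih =>
    intro K hKJ hK
    obtain ⟨K₁, hK₁K, hK₁, hF⟩ := ih (fun e' he' => hE e' (Finset.mem_insert_of_mem he')) K hKJ hK
    obtain ⟨t, ht, K₂, hK₂, hK₂L, hno⟩ :=
      hE e (Finset.mem_insert_self _ _) K₁ (hK₁K.trans hKJ) hK₁
    refine ⟨K₂, hK₂.trans hK₁K, hK₂L, ?_⟩
    intro e' he'
    rcases Finset.mem_insert.mp he' with rfl | he'
    · exact ⟨t, ht, hno⟩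
    · obtain ⟨t', ht', hno'⟩ := hF e' he'
      refine ⟨t', ht', ?_⟩
      rintro ⟨ω, hω, h1, h2⟩
      exact hno' ⟨ω, hω, h1, Spl_mono hK₂ h2⟩

/-- iteration of the stages and pigeonhole -/
theorem seqT {T : Type} (H : ℕ → Finset ℕ) (Lgp : Set ℕ → Prop) (A : Set ℕ) (hA : Lgp A)
    (Q : Finset T) (Bd : ℕ → Finset ℕ → Set ℕ → T → Prop)
    (hst : ∀ K ⊆ A, Lgp K → ∀ n : ℕ, ∃ (j : ℕ) (X : Finset ℕ) (K' : Set ℕ) (t : T), n ≤ j ∧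
      X ⊆ H j ∧ ↑X ⊆ K ∧ K' ⊆ K ∧ Lgp K' ∧ t ∈ Q ∧ Bd n X K' t) :
    ∃ (j : ℕ → ℕ) (X : ℕ → Finset ℕ) (K : ℕ → Set ℕ) (t : T) (I : Set ℕ),
      I.Infinite ∧ t ∈ Q ∧ (∀ n, n ≤ j n) ∧ (∀ n, X n ⊆ H (j n)) ∧
      (∀ n m, n ≤ m → ↑(X m) ⊆ K n) ∧ (∀ n, K n ⊆ A) ∧
      ∀ n ∈ I, Bd n (X n) (K (n + 1)) t := by
  classical
  have hst' := fun (K : {K : Set ℕ // K ⊆ A ∧ Lgp K}) (n : ℕ) => hst K.1 K.2.1 K.2.2 n
  choose jf Xf Kf tf h1 h2 h3 h4 h5 h6 h7 using hst'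
  let K : ℕ → {K : Set ℕ // K ⊆ A ∧ Lgp K} := fun n =>
    Nat.rec ⟨A, subset_rfl, hA⟩ (fun n K => ⟨Kf K n, (h4 K n).trans K.2.1, h5 K n⟩) n
  have hK : ∀ n, (K (n + 1)).1 = Kf (K n) n := fun n => rfl
  have hmono : ∀ n m, n ≤ m → (K m).1 ⊆ (K n).1 := by
    intro n m hnm
    induction hnm with
    | refl => exact subset_rfl
    | step _ ih =>
      refine Set.Subset.trans ?_ ih
      rw [Nat.succ_eq_add_one, hK]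
      exact h4 _ _
  obtain ⟨⟨t₀, ht₀⟩, hinf⟩ := Finite.exists_infinite_fiber
    (fun n : ℕ => (⟨tf (K n) n, h6 (K n) n⟩ : {t // t ∈ Q}))
  have hI : {n : ℕ | tf (K n) n = t₀}.Infinite := by
    have := Set.infinite_coe_iff.mp hinf
    refine this.mono ?_
    intro n hn
    exact congrArg Subtype.val (Set.mem_singleton_iff.mp hn)
  refine ⟨fun n => jf (K n) n, fun n => Xf (K n) n, fun n => (K n).1, t₀,
    {n : ℕ | tf (K n) n = t₀}, hI, ht₀, fun n => h1 _ _, fun n => h2 _ _,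
    fun n m hnm => (h3 (K m) m).trans (hmono n m hnm), fun n => (K n).2.1, ?_⟩
  intro n hn
  have hn' : tf (K n) n = t₀ := hn
  have h8 := h7 (K n) n
  rw [hn'] at h8
  exact h8

theorem spl_later {X : ℕ → Finset ℕ} {K : ℕ → Set ℕ} {I : Set ℕ}
    (hXK : ∀ n m, n ≤ m → ↑(X m) ⊆ K n) {ω : Set ℕ}
    (hS : Spl ω {x | ∃ n ∈ I, x ∈ X n}) (n : ℕ) : Spl ω (K (n + 1)) := by
  have hfin : (⋃ i ∈ Finset.range (n + 1), (X i : Set ℕ)).Finite :=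
    Set.Finite.biUnion (Finset.finite_toSet _) (fun i _ => Finset.finite_toSet _)
  have hmem : ∀ x, (∃ n ∈ I, x ∈ X n) → x ∉ (⋃ i ∈ Finset.range (n + 1), (X i : Set ℕ)) →
      x ∈ K (n + 1) := by
    rintro x ⟨n', _, hx⟩ hnot
    have hlt : n < n' := by
      by_contra hle
      apply hnot
      refine Set.mem_biUnion (x := n') ?_ hx
      simp only [Finset.coe_range, Set.mem_Iio]
      omega
    exact hXK (n + 1) n' hlt hx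
  refine ⟨(hS.1.sdiff hfin).mono ?_, (hS.2.sdiff hfin).mono ?_⟩
  · rintro x ⟨⟨hx, hxω⟩, hxn⟩
    exact ⟨hmem x hx hxn, hxω⟩
  · rintro x ⟨⟨hx, hxω⟩, hxn⟩
    exact ⟨hmem x hx hxn, hxω⟩

theorem lg_union {m : ℕ} (hm : 1 ≤ m) {R : (Fin m → ℕ) → Prop} {H : ℕ → Finset ℕ} {j : ℕ → ℕ}
    {X : ℕ → Finset ℕ} {I : Set ℕ} (hI : I.Infinite) (hnj : ∀ n, n ≤ j n)
    (hXH : ∀ n, X n ⊆ H (j n)) (hT : ∀ n ∈ I, Tr R n n (X n)) :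
    Lg R H {x | ∃ n ∈ I, x ∈ X n} := by
  intro n₀
  obtain ⟨n, hn, hlt⟩ := hI.exists_gt n₀
  exact ⟨j n, hlt.le.trans (hnj n), X n, hXH n, fun x hx => ⟨n, hn, hx⟩,
    Tr_anti hm hlt.le (Tr_mono hlt.le subset_rfl (fun _ _ h => h) (hT n hn))⟩

theorem firstT {m : ℕ} (hm : 1 ≤ m) (Ω : Set (Set ℕ)) (H : ℕ → Finset ℕ)
    (hinc : ∀ i j, i < j → ∀ x ∈ H i, ∀ y ∈ H j, x < y) (R₀ : (Fin m → ℕ) → Prop) (A : Set ℕ)
    (hA : Lg R₀ H A)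
    (hΩ : ∀ R : (Fin m → ℕ) → Prop, (∀ z, R z → R₀ z) → ∀ J ⊆ A, Lg R H J → ∀ τ : Set (Fin m),
      ∃ ω ∈ Ω, (∃ z : Fin m → ℕ, R z ∧ Ptn ω τ z) ∧ Spl ω J) :
    ∃ (j : ℕ) (z : Fin m → ℕ), (∀ a, z a ∈ H j ∧ z a ∈ A) ∧ R₀ z ∧ ∃ J ⊆ A, Lg R₀ H J ∧
      (∀ x ∈ J, ∀ i ≤ j, x ∉ H i) ∧ ∀ τ : Set (Fin m), ∀ J' ⊆ J, Lg R₀ H J' →
        ∃ ω ∈ Ω, Ptn ω τ z ∧ Spl ω J' := by
  classical
  have hdisj : ∀ i j, i ≠ j → Disjoint (H i) (H j) := by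
    intro i j hij
    rw [Finset.disjoint_left]
    intro x hx hx'
    rcases lt_or_gt_of_ne hij with h | h
    · exact lt_irrefl _ (hinc i j h x hx x hx')
    · exact lt_irrefl _ (hinc j i h x hx' x hx)
  by_contra hcon
  have hbad : ∀ j, ∀ z : Fin m → ℕ, (∀ a, z a ∈ H j ∧ z a ∈ A) → R₀ z → ∀ K ⊆ A, Lg R₀ H K →
      ∃ t ∈ (Set.univ : Set (Set (Fin m))), ∃ K' ⊆ K, Lg R₀ H K' ∧
        ¬ ∃ ω ∈ Ω, Ptn ω t z ∧ Spl ω K' := by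
    intro j z hz hRz K hKA hK
    by_contra hc
    refine hcon ⟨j, z, hz, hRz, K ∩ {x | ∀ i ≤ j, x ∉ H i}, Set.inter_subset_left.trans hKA,
      Lg_cut hdisj hK j hm, fun x hx => hx.2, ?_⟩
    intro τ J' hJ' hJ'L
    by_contra hc'
    exact hc ⟨τ, Set.mem_univ _, J', hJ'.trans Set.inter_subset_left, hJ'L, hc'⟩
  have hst : ∀ K ⊆ A, Lg R₀ H K → ∀ n : ℕ, ∃ (j : ℕ) (X : Finset ℕ) (K' : Set ℕ)
      (t : Set (Fin m)), n ≤ j ∧ X ⊆ H j ∧ ↑X ⊆ K ∧ K' ⊆ K ∧ Lg R₀ H K' ∧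
      t ∈ (Finset.univ : Finset (Set (Fin m))) ∧
      Tr (fun z => R₀ z ∧ ¬ ∃ ω ∈ Ω, Ptn ω t z ∧ Spl ω K') n n X := by
    intro K hKA hK n
    obtain ⟨S, D, hSD⟩ := Tr_relq hm (Finset.univ : Finset (Set (Fin m))) n n
    obtain ⟨j, hj, X, hXH, hXK, hXT⟩ := hK (max n (max S D))
    have hXT' : Tr R₀ S D X :=
      Tr_anti hm ((le_max_right S D).trans (le_max_right _ _))
        (Tr_mono ((le_max_left S D).trans (le_max_right _ _)) subset_rfl (fun _ _ h => h) hXT)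
    obtain ⟨K', hK'K, hK', hE⟩ := shrinkT Ω (Lg R₀ H) A Set.univ (fun ω t z => Ptn ω t z)
      ((Fintype.piFinset (fun _ : Fin m => X)).filter R₀) (by
        intro z hz K₁ hK₁A hK₁
        obtain ⟨hz1, hz2⟩ := Finset.mem_filter.mp hz
        rw [Fintype.mem_piFinset] at hz1
        exact hbad j z (fun a => ⟨hXH (hz1 a), hKA (hXK (hz1 a))⟩) hz2 K₁ hK₁A hK₁) K hKA hK
    obtain ⟨t, _, ht⟩ := hSD R₀ (fun t z => R₀ z ∧ ¬ ∃ ω ∈ Ω, Ptn ω t z ∧ Spl ω K') X (by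
      intro z hz hRz
      obtain ⟨t, _, ht⟩ := hE z (Finset.mem_filter.mpr ⟨Fintype.mem_piFinset.mpr hz, hRz⟩)
      exact ⟨t, Finset.mem_univ _, hRz, ht⟩) hXT'
    exact ⟨j, X, K', t, (le_max_left _ _).trans hj, hXH, hXK, hK'K, hK', Finset.mem_univ _, ht⟩
  obtain ⟨j, X, K, τ, I, hI, -, hnj, hXH, hXK, hKA, hno⟩ := seqT H (Lg R₀ H) A hA
    (Finset.univ : Finset (Set (Fin m)))
    (fun n X K' t => Tr (fun z => R₀ z ∧ ¬ ∃ ω ∈ Ω, Ptn ω t z ∧ Spl ω K') n n X) hst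
  have hJA : {x | ∃ n ∈ I, x ∈ X n} ⊆ A := by
    rintro x ⟨n, _, hx⟩
    exact hKA n (hXK n n le_rfl hx)
  obtain ⟨ω, hω, ⟨z, hRz, hzτ⟩, hS⟩ := hΩ
    (fun z => R₀ z ∧ ∃ n ∈ I, (∀ a, z a ∈ X n) ∧ ¬ ∃ ω ∈ Ω, Ptn ω τ z ∧ Spl ω (K (n + 1)))
    (fun z hz => hz.1) _ hJA (lg_union hm hI hnj hXH (by
      intro n hn
      exact Tr_mono le_rfl subset_rfl (fun z hz h => ⟨h.1, n, hn, hz, h.2⟩) (hno n hn))) τ
  obtain ⟨_, n, hn, _, hcontra⟩ := hRz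
  exact hcontra ⟨ω, hω, hzτ, spl_later hXK hS n⟩

end Pool.Agent.H92.ST
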