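import Pool.Agent.H92.ST.FuseB

/-!
[H92 ST FUSEC]  Fusion: the infinite set.  The proof is in the header of `FuseB.lean`.
-/

namespace Pool.Agent.H92.ST

open Filter Pool.Agent.H92.BH

theorem fusionT {m : ℕ} (hm : 1 ≤ m) (Ω : Set (Set ℕ)) (H : ℕ → Finset ℕ)
    (hinc : ∀ i j, i < j → ∀ x ∈ H i, ∀ y ∈ H j, x < y) (R₀ : (Fin m → ℕ) → Prop) (A : Set ℕ)
    (hA : Lg R₀ H A)
    (hΩ : ∀ R : (Fin m → ℕ) → Prop, (∀ z, R z → R₀ z) → ∀ J ⊆ A, Lg R H J → ∀ τ : Set (Fin m),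
      ∃ ω ∈ Ω, (∃ z : Fin m → ℕ, R z ∧ Ptn ω τ z) ∧ Spl ω J) :
    ∃ B : Set ℕ, B.Infinite ∧ (∀ x ∈ B, ∃ j, x ∈ H j) ∧ ∃ (j₀ : ℕ) (z : Fin m → ℕ),
      (∀ a, z a ∈ H j₀ ∧ z a ∈ B) ∧ R₀ z ∧ ∀ G : Finset ℕ, ↑G ⊆ B → ∀ F ⊆ G,
        ∃ ω ∈ Ω, (∀ a ∈ G, a ∈ ω ↔ a ∈ F) ∧ ∀ x ∈ gaps z, x ∉ ω := by
  classical
  have hdisj : ∀ i j, i ≠ j → Disjoint (H i) (H j) := by
    intro i j hij
    rw [Finset.disjoint_left]
    intro x hx hx'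
    rcases lt_or_gt_of_ne hij with h | h
    · exact lt_irrefl _ (hinc i j h x hx x hx')
    · exact lt_irrefl _ (hinc j i h x hx' x hx)
  obtain ⟨j₀, z, hz, hRz, J₀, hJ₀A, hJ₀, -, hg₀⟩ := firstT hm Ω H hinc R₀ A hA hΩ
  have hg₀' : GoodT Ω R₀ H z ∅ J₀ := by
    intro τ F _ J' hJ' hJ'L
    obtain ⟨ω, hω, h1, h2⟩ := hg₀ τ J' hJ' hJ'L
    exact ⟨ω, hω, h1, by simp, h2⟩
  have hstep : ∀ t : {t : Finset ℕ × Set ℕ // t.2 ⊆ A ∧ Lg R₀ H t.2 ∧ GoodT Ω R₀ H z t.1 t.2},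
      ∃ (j x : ℕ) (t' : {t : Finset ℕ × Set ℕ // t.2 ⊆ A ∧ Lg R₀ H t.2 ∧ GoodT Ω R₀ H z t.1 t.2}),
        x ∈ H j ∧ x ∈ t.1.2 ∧ t'.1.1 = insert x t.1.1 ∧
        t'.1.2 ⊆ t.1.2 ∧ ∀ y ∈ t'.1.2, ∀ i ≤ j, y ∉ H i := by
    rintro ⟨⟨s, J⟩, hJA, hJ, hg⟩
    obtain ⟨j, x, hx, hxJ, J', hJ'J, hJ', hJ'2, hg'⟩ := nextT hm Ω H hdisj R₀ z s J hJ hg
    exact ⟨j, x, ⟨⟨insert x s, J'⟩, hJ'J.trans hJA, hJ', hg'⟩, hx, hxJ, rfl, hJ'J, hJ'2⟩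
  choose jf xf tf h1 h3 h6 h7 h8 using hstep
  let t : ℕ → {t : Finset ℕ × Set ℕ // t.2 ⊆ A ∧ Lg R₀ H t.2 ∧ GoodT Ω R₀ H z t.1 t.2} := fun n =>
    Nat.rec ⟨⟨∅, J₀⟩, hJ₀A, hJ₀, hg₀'⟩ (fun _ t => tf t) n
  have ht0 : (t 0).1.1 = ∅ := rfl
  have ht : ∀ n, t (n + 1) = tf (t n) := fun n => rfl
  have hsub : ∀ n m, n ≤ m → (t n).1.1 ⊆ (t m).1.1 := by
    intro n m hnm
    induction hnm with
    | refl => exact subset_rfl
    | step _ ih =>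
      refine ih.trans ?_
      rw [Nat.succ_eq_add_one, ht, h6]
      exact Finset.subset_insert _ _
  have hsub2 : ∀ n m, n ≤ m → (t m).1.2 ⊆ (t n).1.2 := by
    intro n m hnm
    induction hnm with
    | refl => exact subset_rfl
    | step _ ih =>
      refine Set.Subset.trans ?_ ih
      rw [Nat.succ_eq_add_one, ht]
      exact h7 _
  set B : Set ℕ := {a | (∃ b, z b = a) ∨ ∃ n, a ∈ (t n).1.1} with hB
  have hs : ∀ n, ∀ a ∈ (t n).1.1, ∃ j, a ∈ H j := by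
    intro n
    induction n with
    | zero =>
      intro a ha
      rw [ht0] at ha
      exact absurd ha (Finset.notMem_empty a)
    | succ n ih =>
      intro a ha
      rw [ht, h6] at ha
      rcases Finset.mem_insert.mp ha with rfl | ha
      · exact ⟨_, h1 _⟩
      · exact ih a ha
  have hxB : ∀ n, xf (t n) ∈ B := by
    intro n
    refine Or.inr ⟨n + 1, ?_⟩
    rw [ht, h6]
    exact Finset.mem_insert_self _ _
  have hxne : ∀ n m, n < m → xf (t n) ≠ xf (t m) := by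
    intro n m hnm heq
    have hxm : xf (t m) ∈ (tf (t n)).1.2 := by
      have := hsub2 (n + 1) m hnm (h3 (t m))
      rw [ht] at this
      exact this
    refine h8 (t n) _ hxm (jf (t n)) le_rfl ?_
    rw [← heq]
    exact h1 _
  refine ⟨B, ?_, ?_, j₀, z, fun a => ⟨(hz a).1, Or.inl ⟨a, rfl⟩⟩, hRz, ?_⟩
  · refine (Set.infinite_range_of_injective (f := fun n => xf (t n)) ?_).mono ?_
    · intro n m hnm
      rcases lt_trichotomy n m with h | h | h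
      · exact absurd hnm (hxne n m h)
      · exact h
      · exact absurd hnm.symm (hxne m n h)
    · rintro _ ⟨n, rfl⟩
      exact hxB n
  · rintro a (⟨b, rfl⟩ | ⟨n, hn⟩)
    · exact ⟨j₀, (hz b).1⟩
    · exact hs n a hn
  · intro G hG F hFG
    have hGt : ∃ n, ∀ a ∈ G, (∃ b, z b = a) ∨ a ∈ (t n).1.1 := by
      have h9 : ∀ a ∈ G, ∃ n, (∃ b, z b = a) ∨ a ∈ (t n).1.1 := by
        intro a ha
        rcases hG (Finset.mem_coe.mpr ha) with h | ⟨n, h⟩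
        · exact ⟨0, Or.inl h⟩
        · exact ⟨n, Or.inr h⟩
      choose! nf hnf using h9
      refine ⟨G.sup nf, fun a ha => ?_⟩
      rcases hnf a ha with h | h
      · exact Or.inl h
      · exact Or.inr (hsub _ _ (Finset.le_sup ha) h)
    obtain ⟨n, hn⟩ := hGt
    obtain ⟨ω, hω, ⟨h9, h10⟩, h11, -⟩ := (t n).2.2.2 {b | z b ∈ F} (F ∩ (t n).1.1)
      Finset.inter_subset_right (t n).1.2 subset_rfl (t n).2.2.1
    refine ⟨ω, hω, ?_, h10⟩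
    intro a ha
    rcases hn a ha with ⟨b, rfl⟩ | h
    · exact h9 b
    · rw [h11 a h, Finset.mem_inter]
      exact ⟨fun h => h.1, fun h' => ⟨h', h⟩⟩

end Pool.Agent.H92.ST
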