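import Pool.Agent.H92.ST.Ext
import Pool.Agent.H92.ST.TrC
import Pool.Agent.H92.ST.Core4
import Pool.Agent.H92.BH.XPair

/-!
[H92 ST STAR]  Limits of translates of the primes of one colour realising prescribed patterns on trees.

Proof.  Choose `d` with `r (m-1)^d < 10^(-25) m^d` (`((m-1)/m)^d → 0`), `K = m^d ≥ 1`,
`L g = 320 * 2^((g+1) K)`, `l j = L (j / K)` (so `320 * 2^j ≤ l j` as `j < (j/K + 1) K`).
By `Lg R H J`, `Tr_mono` and `Tr_anti` choose `j_0 < j_1 < ...` and `X g ⊆ H (j_g)`, `↑(X g) ⊆ J`, `Tr R (2^(L g) + 2) d (X g)`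
(use `n = max (j_(g-1) + 1) (max d (2^(L g) + 2))`).
`extract` with `s = 2^(L g)`: families `𝒱 g`, `K` clusters of size `2^(L g)`.  Enumerate: `e g : Fin K ≃ 𝒱 g`
(`Finset.equivFinOfCardEq`), `H' j = e (j / K) (j % K)` (for `j = g K + w`, `w < K`: `j / K = g`, `j % K = w`).  Cards `2^(l j)`, disjoint (different `g`: in
different blocks `H (j_g)`, which are disjoint by `hinc`; same `g`: the property of `𝒱 g`), admissible (subsets of the `H j`).
`core4` gives `B`, `colour_parts c B` gives `Bf i ∈ Lims c i`, `Bf i ⊆ B`, covering `B`.  For `g` in the infinite set of `core4` the number of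
`V ∈ 𝒱 g` which meet `B` is `≥ 10^(-25) K > r (m-1)^d`; each of them meets some `Bf i`, so for some `i` the number of the `V ∈ 𝒱 g` which
meet `Bf i` is `> (m-1)^d`.  Pigeonhole: one `i` for infinitely many `g` (as `hcol` in `exists_splitP`, XPair.lean).  `ω = Bf i`.
`ω ⊆ J`: `B ⊆ ⋃ H' j ⊆ ⋃ X g ⊆ J`.
For such a `g`: the hypothesis on `ω` of `extract` holds: `x ∈ ω` between two elements of `X g ⊆ H (j_g)` is in a cluster of some `𝒱 g'`,
`⊆ H (j_g')`, so `g' = g` by `hinc`.  So `τ i` is realised by a tuple `z` with entries in `X g`.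
`Spl`: for infinitely many `g` some cluster of `𝒱 g` meets `ω` (its elements are in `J ∩ X g`; the `X g` are nonempty and disjoint, so the set `J ∩ ω` is
infinite: e.g. `Set.infinite_of_not_bddAbove`, since the elements of `H (j_g)` are `≥ j_g ≥ g`, or `Set.infinite_of_injOn`), and for every
`g` the lower bound element `x ∈ X g` of `extract` is in `J` and not in `ω` (it would be in a cluster of `𝒱 g`, but `x <` all elements of the clusters).
-/

namespace Pool.Agent.H92.ST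

open Finset Filter Pool.Agent.H21.MT Pool.Agent.H92.BH

theorem star {r m : ℕ} (hm : 2 ≤ m) (c : ℕ → Fin r) (H : ℕ → Finset ℕ)
    (hinc : ∀ i j, i < j → ∀ x ∈ H i, ∀ y ∈ H j, x < y)
    (hadm : ∀ p : ℕ, p.Prime → ∃ a : ℕ, ∀ j, ∀ h ∈ H j, ¬ p ∣ a + h)
    (R : (Fin m → ℕ) → Prop) (J : Set ℕ) (hJ : Lg R H J) (τ : Fin r → Set (Fin m)) :
    ∃ i, ∃ ω ∈ Lims c i, ω ⊆ J ∧ (∃ z : Fin m → ℕ, R z ∧ Ptn ω (τ i) z) ∧ Spl ω J := by
  classical
  have hr : 0 < r := (c 0).pos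
  -- the depth
  obtain ⟨d, hd⟩ : ∃ d : ℕ, (r : ℝ) * ((m - 1 : ℕ) : ℝ) ^ d < (1 / 10 ^ 25 : ℝ) * (m : ℝ) ^ d := by
    have hm0 : (0 : ℝ) < m := by exact_mod_cast (by omega : 0 < m)
    have hr0 : (0 : ℝ) < r := by exact_mod_cast hr
    have h1 : (((m - 1 : ℕ) : ℝ) / m) < 1 := by
      rw [div_lt_one hm0]
      exact_mod_cast (by omega : m - 1 < m)
    obtain ⟨d, hd⟩ := exists_pow_lt_of_lt_one
      (show (0 : ℝ) < 1 / 10 ^ 25 / r by positivity) h1
    refine ⟨d, ?_⟩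
    rw [div_pow, div_lt_div_iff₀ (by positivity) hr0] at hd
    linarith
  obtain ⟨K, hKdef⟩ : ∃ K : ℕ, K = m ^ d := ⟨_, rfl⟩
  have hK : 0 < K := by
    rw [hKdef]
    exact pow_pos (by omega) d
  obtain ⟨L, hL⟩ : ∃ L : ℕ → ℕ, ∀ g, L g = 320 * 2 ^ ((g + 1) * K) :=
    ⟨fun g => 320 * 2 ^ ((g + 1) * K), fun _ => rfl⟩
  -- the trees
  have hsel : ∀ t n : ℕ, ∃ (j : ℕ) (X : Finset ℕ), n < j ∧ X ⊆ H j ∧ ↑X ⊆ J ∧
      Tr R (2 ^ L t + 2) d X := by
    intro t n
    obtain ⟨j, hj, X, hX1, hX2, hX3⟩ := hJ (max (n + 1) (max d (2 ^ L t + 2)))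
    refine ⟨j, X, lt_of_lt_of_le (Nat.lt_succ_self n) ((le_max_left _ _).trans hj), hX1, hX2, ?_⟩
    have h1 := Tr_anti (by omega : 1 ≤ m) (d' := d)
      ((le_max_left d (2 ^ L t + 2)).trans (le_max_right (n + 1) _)) hX3
    exact Tr_mono ((le_max_right d (2 ^ L t + 2)).trans (le_max_right (n + 1) _)) subset_rfl
      (fun z _ h => h) h1
  choose jf Xf h1 h2 h3 h4 using hsel
  let s : ℕ → ℕ := fun n => Nat.rec 0 (fun t m => jf t m) n
  have hs : ∀ t, s (t + 1) = jf t (s t) := fun t => rfl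
  have hslt : ∀ t, s t < s (t + 1) := fun t => by
    rw [hs]
    exact h1 _ _
  have hsmono : StrictMono s := strictMono_nat_of_lt_succ hslt
  obtain ⟨X, hX⟩ : ∃ X : ℕ → Finset ℕ, ∀ t, X t = Xf t (s t) := ⟨fun t => Xf t (s t), fun _ => rfl⟩
  have hXH : ∀ t, X t ⊆ H (s (t + 1)) := fun t => by
    rw [hX, hs]
    exact h2 _ _
  have hXJ : ∀ t, ↑(X t) ⊆ J := fun t => by
    rw [hX]
    exact h3 _ _
  have hXT : ∀ t, Tr R (2 ^ L t + 2) d (X t) := fun t => by
    rw [hX]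
    exact h4 _ _
  have hXord : ∀ g g', g < g' → ∀ x ∈ X g, ∀ y ∈ X g', x < y := by
    intro g g' hg x hx y hy
    exact hinc _ _ (hsmono (Nat.succ_lt_succ hg)) x (hXH g hx) y (hXH g' hy)
  have hXeq : ∀ g g' x, x ∈ X g → x ∈ X g' → g = g' := by
    intro g g' x hx hx'
    rcases lt_trichotomy g g' with h | h | h
    · exact absurd (hXord g g' h x hx x hx') (lt_irrefl x)
    · exact h
    · exact absurd (hXord g' g h x hx' x hx) (lt_irrefl x)
  choose 𝒱 e1 e2 e3 e4 e5 e6 using fun t => extract (by omega : 1 ≤ m)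
    (Nat.one_le_two_pow : 1 ≤ 2 ^ L t) d (X t) (hXT t)
  -- enumeration of the clusters
  obtain ⟨F, hF1, hF2, hF3⟩ : ∃ F : ℕ → ℕ → Finset ℕ, (∀ g w, w < K → F g w ∈ 𝒱 g) ∧
      (∀ g, ∀ V ∈ 𝒱 g, ∃ w < K, F g w = V) ∧
      ∀ g w w', w < K → w' < K → F g w = F g w' → w = w' := by
    have hc : ∀ g, (𝒱 g).card = K := fun g => by rw [hKdef]; exact e1 g
    refine ⟨fun g w => if h : w < K then
      ((Finset.equivFinOfCardEq (hc g)).symm ⟨w, h⟩ : Finset ℕ) else ∅, ?_, ?_, ?_⟩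
    · intro g w hw
      simp only [dif_pos hw]
      exact ((Finset.equivFinOfCardEq (hc g)).symm ⟨w, hw⟩).2
    · intro g V hV
      refine ⟨(Finset.equivFinOfCardEq (hc g) ⟨V, hV⟩ : ℕ), Fin.isLt _, ?_⟩
      simp only [Fin.is_lt, dif_pos, Fin.eta, Equiv.symm_apply_apply]
    · intro g w w' hw hw' h
      simp only [dif_pos hw, dif_pos hw'] at h
      have h5 := (Finset.equivFinOfCardEq (hc g)).symm.injective (Subtype.ext h)
      exact congrArg Fin.val h5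
  obtain ⟨H', hH'⟩ : ∃ H' : ℕ → Finset ℕ, ∀ j, H' j = F (j / K) (j % K) :=
    ⟨fun j => F (j / K) (j % K), fun _ => rfl⟩
  have hH'V : ∀ j, H' j ∈ 𝒱 (j / K) := fun j => by
    rw [hH']
    exact hF1 _ _ (Nat.mod_lt _ hK)
  have hH'X : ∀ j, H' j ⊆ X (j / K) := fun j => (e2 _ _ (hH'V j)).1
  have hH'g : ∀ g w, w < K → H' (g * K + w) = F g w := by
    intro g w hw
    rw [hH']
    have h5 : (g * K + w) / K = g := by
      rw [mul_comm, Nat.mul_add_div hK, Nat.div_eq_of_lt hw, add_zero]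
    have h6 : (g * K + w) % K = w := by
      rw [mul_comm, Nat.mul_add_mod, Nat.mod_eq_of_lt hw]
    rw [h5, h6]
  obtain ⟨B, hB0, hB1, hB2⟩ := core4 hK H' (fun j => L (j / K)) (fun j => (e2 _ _ (hH'V j)).2) (by
      intro i j hij
      by_cases h : i / K = j / K
      · refine e3 (i / K) _ (hH'V i) _ (by rw [h]; exact hH'V j) ?_
        intro hcon
        rw [hH', hH', h] at hcon
        have h5 := hF3 _ _ _ (Nat.mod_lt _ hK) (Nat.mod_lt _ hK) hcon
        apply hij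
        rw [← Nat.div_add_mod i K, ← Nat.div_add_mod j K, h, h5]
      · rw [Finset.disjoint_left]
        intro x hx hx'
        exact h (hXeq _ _ x (hH'X i hx) (hH'X j hx'))) (by
      intro j
      show 320 * 2 ^ j ≤ L (j / K)
      rw [hL]
      refine Nat.mul_le_mul_left _ (Nat.pow_le_pow_right (by norm_num) ?_)
      have h5 := Nat.div_add_mod j K
      have h6 := Nat.mod_lt j hK
      have h7 : (j / K + 1) * K = K * (j / K) + K := by ring
      omega) (by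
      intro p hp
      obtain ⟨a, ha⟩ := hadm p hp
      exact ⟨a, fun t h hh => ha (s (t / K + 1)) h (hXH _ (hH'X t hh))⟩)
  obtain ⟨Bf, hBf1, hBf2, hBf3⟩ := colour_parts c B hB1
  -- one colour meets many clusters
  have hmany : ∀ g ∈ {g : ℕ | (1 / 10 ^ 25 : ℝ) * K ≤
        (((Finset.range K).filter (fun w => ∃ a ∈ H' (g * K + w), a ∈ B)).card : ℝ)},
      ∃ i : Fin r, (m - 1) ^ d < ((𝒱 g).filter (fun V => ∃ x ∈ V, x ∈ Bf i)).card := by
    intro g hg
    by_contra hcon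
    push Not at hcon
    have hg : (1 / 10 ^ 25 : ℝ) * K ≤
        (((Finset.range K).filter (fun w => ∃ a ∈ H' (g * K + w), a ∈ B)).card : ℝ) := hg
    have h5 : ((Finset.range K).filter (fun w => ∃ a ∈ H' (g * K + w), a ∈ B)).card ≤
        ((Finset.univ : Finset (Fin r)).biUnion
          (fun i => (𝒱 g).filter (fun V => ∃ x ∈ V, x ∈ Bf i))).card := by
      apply Finset.card_le_card_of_injOn (fun w => F g w)
      · intro w hw
        rw [Finset.mem_coe, Finset.mem_filter, Finset.mem_range] at hw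
        obtain ⟨hw, a, ha, haB⟩ := hw
        rw [hH'g g w hw] at ha
        obtain ⟨i, hi⟩ := hBf3 a haB
        rw [Finset.mem_coe, Finset.mem_biUnion]
        exact ⟨i, Finset.mem_univ i, Finset.mem_filter.mpr ⟨hF1 g w hw, a, ha, hi⟩⟩
      · intro w hw w' hw' h
        rw [Finset.mem_coe, Finset.mem_filter, Finset.mem_range] at hw hw'
        exact hF3 g w w' hw.1 hw'.1 h
    have h6 : ((Finset.univ : Finset (Fin r)).biUnion
          (fun i => (𝒱 g).filter (fun V => ∃ x ∈ V, x ∈ Bf i))).card ≤ r * (m - 1) ^ d := by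
      refine Finset.card_biUnion_le.trans ?_
      refine (Finset.sum_le_card_nsmul _ _ _ (fun i _ => hcon i)).trans ?_
      rw [Finset.card_univ, Fintype.card_fin, smul_eq_mul]
    have h7 : (((Finset.range K).filter (fun w => ∃ a ∈ H' (g * K + w), a ∈ B)).card : ℝ) ≤
        (r : ℝ) * ((m - 1 : ℕ) : ℝ) ^ d := by
      exact_mod_cast h5.trans h6
    have h8 : (K : ℝ) = (m : ℝ) ^ d := by
      rw [hKdef]
      push_cast
      ring
    rw [h8] at hg
    linarith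
  have hcol : ∃ i : Fin r,
      {g : ℕ | (m - 1) ^ d < ((𝒱 g).filter (fun V => ∃ x ∈ V, x ∈ Bf i)).card}.Infinite := by
    by_contra hcon
    push Not at hcon
    refine hB2 ((Set.finite_iUnion fun i => hcon i).subset ?_)
    intro t ht
    obtain ⟨i, hi⟩ := hmany t ht
    exact Set.mem_iUnion.mpr ⟨i, hi⟩
  obtain ⟨i, hi⟩ := hcol
  have hωX : ∀ a ∈ Bf i, ∃ g, ∃ V ∈ 𝒱 g, a ∈ V := by
    intro a ha
    obtain ⟨t, ht⟩ := hB0 a (hBf2 i ha)
    exact ⟨t / K, H' t, hH'V t, ht⟩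
  have hωg : ∀ g, ∀ x ∈ Bf i, (∃ y ∈ X g, y ≤ x) → (∃ y ∈ X g, x ≤ y) → ∃ V ∈ 𝒱 g, x ∈ V := by
    rintro g x hx ⟨y, hy, hyx⟩ ⟨y', hy', hxy'⟩
    obtain ⟨g', V, hV, hxV⟩ := hωX x hx
    have hxX : x ∈ X g' := (e2 g' V hV).1 hxV
    rcases lt_trichotomy g g' with h | h | h
    · exact absurd (hXord g g' h y' hy' x hxX) (not_lt.mpr hxy')
    · subst h
      exact ⟨V, hV, hxV⟩
    · exact absurd (hXord g' g h x hxX y hy) (not_lt.mpr hyx)
  have hXge : ∀ g, ∀ x ∈ X g, g ≤ x := by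
    intro g
    induction g with
    | zero => exact fun x _ => Nat.zero_le x
    | succ g ih =>
      intro x hx
      obtain ⟨y, hy, _⟩ := e4 g
      have h5 := ih y hy
      have h6 := hXord g (g + 1) (Nat.lt_succ_self g) y hy x hx
      omega
  refine ⟨i, Bf i, hBf1 i, ?_, ?_, ?_, ?_⟩
  · intro a ha
    obtain ⟨g, V, hV, haV⟩ := hωX a ha
    exact hXJ g ((e2 g V hV).1 haV)
  · obtain ⟨g, hg⟩ := hi.nonempty
    obtain ⟨z, -, hz2, hz3⟩ := e6 g (Bf i) (hωg g) hg (τ i)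
    exact ⟨z, hz2, hz3⟩
  · apply Set.infinite_of_not_bddAbove
    rintro ⟨M, hM⟩
    obtain ⟨g, hg, hMg⟩ := hi.exists_gt M
    have hg : (m - 1) ^ d < ((𝒱 g).filter (fun V => ∃ x ∈ V, x ∈ Bf i)).card := hg
    obtain ⟨V, hV⟩ := Finset.card_pos.mp (Nat.lt_of_le_of_lt (Nat.zero_le _) hg)
    rw [Finset.mem_filter] at hV
    obtain ⟨hV, x, hxV, hxω⟩ := hV
    have hxX : x ∈ X g := (e2 g V hV).1 hxV
    have h5 : x ≤ M := hM ⟨hXJ g hxX, hxω⟩
    have h6 := hXge g x hxX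
    omega
  · apply Set.infinite_of_not_bddAbove
    rintro ⟨M, hM⟩
    obtain ⟨x, hx, hx'⟩ := e4 (M + 1)
    have hxω : x ∉ Bf i := by
      intro h
      obtain ⟨V, hV, hxV⟩ := hωg (M + 1) x h ⟨x, hx, le_rfl⟩ ⟨x, hx, le_rfl⟩
      exact lt_irrefl x (hx' V hV x hxV)
    have h5 : x ≤ M := hM ⟨hXJ (M + 1) hx, hxω⟩
    have h6 := hXge (M + 1) x hx
    omega

end Pool.Agent.H92.ST
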