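import Pool.Agent.H92.ST.FuseC
import Pool.Agent.H92.ST.Star

/-!
[H92 ST SHAT]  An infinite set all of whose finite subsets are shattered, containing a tuple of the relation.
-/

namespace Pool.Agent.H92.ST

open Finset Filter Pool.Agent.H21.MT Pool.Agent.H92.BH

theorem gaps_finite {m : ℕ} (z : Fin m → ℕ) : (gaps z).Finite := by
  refine (Set.finite_Iio (Finset.univ.sup z)).subset ?_
  rintro x ⟨a, b, -, -, -, h⟩
  exact lt_of_lt_of_le h (Finset.le_sup (Finset.mem_univ b))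

theorem shatterT {r m : ℕ} (hm : 2 ≤ m) (c : ℕ → Fin r) (H : ℕ → Finset ℕ)
    (hinc : ∀ i j, i < j → ∀ x ∈ H i, ∀ y ∈ H j, x < y)
    (hadm : ∀ p : ℕ, p.Prime → ∃ a : ℕ, ∀ j, ∀ h ∈ H j, ¬ p ∣ a + h)
    (R₀ : (Fin m → ℕ) → Prop) (hL : Lg R₀ H Set.univ) :
    ∃ (i : Fin r) (B : Set ℕ), B.Infinite ∧ (∀ x ∈ B, ∃ j, x ∈ H j) ∧
      ∃ (j₀ : ℕ) (z : Fin m → ℕ), (∀ a, z a ∈ H j₀ ∧ z a ∈ B) ∧ R₀ z ∧
        ∀ F : Finset ℕ, ↑F ⊆ B → ShE c i (gaps z) F := by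
  classical
  have hkey : ∃ (i : Fin r) (R₁ : (Fin m → ℕ) → Prop) (A : Set ℕ), (∀ z, R₁ z → R₀ z) ∧
      Lg R₁ H A ∧ ∀ R : (Fin m → ℕ) → Prop, (∀ z, R z → R₁ z) → ∀ J ⊆ A, Lg R H J →
        ∀ τ : Set (Fin m), ∃ ω ∈ Lims c i, (∃ z : Fin m → ℕ, R z ∧ Ptn ω τ z) ∧ Spl ω J := by
    by_contra hcon
    push Not at hcon
    have hind : ∀ S : Finset (Fin r), ∃ (R : (Fin m → ℕ) → Prop) (J : Set ℕ)
        (τ : Fin r → Set (Fin m)), (∀ z, R z → R₀ z) ∧ Lg R H J ∧ ∀ i ∈ S, ∀ ω ∈ Lims c i,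
          (∃ z : Fin m → ℕ, R z ∧ Ptn ω (τ i) z) → ¬ Spl ω J := by
      intro S
      induction S using Finset.induction_on with
      | empty => exact ⟨R₀, Set.univ, fun _ => ∅, fun _ h => h, hL, by simp⟩
      | insert i S hiS ih =>
        obtain ⟨R, J, τ, hR, hJ, hJS⟩ := ih
        obtain ⟨R', hR', J', hJ'J, hJ', τ₀, hno⟩ := hcon i R J hR hJ
        refine ⟨R', J', Function.update τ i τ₀, fun z hz => hR z (hR' z hz), hJ', ?_⟩
        intro i' hi' ω hω hz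
        by_cases h : i' = i
        · subst h
          rw [Function.update_self] at hz
          exact hno ω hω hz
        · rw [Function.update_of_ne h] at hz
          obtain ⟨z, hz1, hz2⟩ := hz
          have h1 := hJS i' ((Finset.mem_insert.mp hi').resolve_left h) ω hω
            ⟨z, hR' z hz1, hz2⟩
          exact fun h2 => h1 (Spl_mono hJ'J h2)
    obtain ⟨R, J, τ, -, hJ, hJS⟩ := hind univ
    obtain ⟨i, ω, hω, -, h1, h2⟩ := star hm c H hinc hadm R J hJ τ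
    exact hJS i (mem_univ _) ω hω h1 h2
  obtain ⟨i, R₁, A, hR₁, hA, hsplit⟩ := hkey
  obtain ⟨B, hBinf, hBH, j₀, z, hz, hRz, hsh⟩ := fusionT (by omega) (Lims c i) H hinc R₁ A hA hsplit
  have hgap : ∀ a ∈ B, a ∉ gaps z := by
    intro a ha hag
    obtain ⟨ω, _, h3, h4⟩ := hsh {a} (by simpa using ha) {a} subset_rfl
    exact h4 a hag ((h3 a (Finset.mem_singleton_self a)).mpr (Finset.mem_singleton_self a))
  refine ⟨i, B, hBinf, hBH, j₀, z, hz, hR₁ z hRz, ?_⟩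
  intro G hG F hF
  obtain ⟨ω, hω, h, hωg⟩ := hsh G hG F hF
  refine (hω (G ∪ (gaps_finite z).toFinset)).mono ?_
  intro N hN a ha
  have h5 : ((N + a).Prime ∧ c (N + a) = i) ↔ a ∈ ω := by
    apply hN a
    rcases ha with ha | ha
    · exact Finset.mem_union_left _ ha
    · exact Finset.mem_union_right _ ((gaps_finite z).mem_toFinset.mpr ha)
  rw [h5]
  rcases ha with ha | ha
  · exact h a ha
  · refine ⟨fun h' => absurd h' (hωg a ha), fun h' => ?_⟩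
    exact absurd ha (hgap a (hG (Finset.mem_coe.mpr (hF h'))))

end Pool.Agent.H92.ST
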