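import Pool.Agent.H92.ST.Blk
import Pool.Agent.H92.ST.Shat
import Pool.Agent.H74.BT.Shear

/-!
[H92 ST MAIN]  Strong form of BohrTuples.
-/

namespace Pool.Agent.H92.ST

open Filter Pool.Agent.H92.BH Pool.Agent.H74.BT

/-- bad tuples -/
def badT {r : ℕ} (c : ℕ → Fin r) (k : ℕ) : Set (Fin (k + 1) → ℤ) :=
  {z | StrictMono z ∧ ¬ FamT c (fun a => (z a - z 0).toNat)}

theorem badT_translate {r : ℕ} (c : ℕ → Fin r) (k : ℕ) :
    ∀ z ∈ badT c k, ∀ t : ℤ, (fun i => z i + t) ∈ badT c k := by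
  rintro z ⟨h1, h2⟩ t
  refine ⟨fun i j hij => by simpa using h1 hij, ?_⟩
  have h3 : (fun a => ((fun i => z i + t) a - (fun i => z i + t) 0).toNat) =
      fun a => (z a - z 0).toNat := by
    funext a
    simp
  rw [h3]
  exact h2

theorem ShE_shift {r : ℕ} (c : ℕ → Fin r) (i : Fin r) (s : ℕ) (E E' : Set ℕ)
    (hE : ∀ a ∈ E, a + s ∈ E') (F : Finset ℕ) (hF : ShE c i E' (F.image (fun a => a + s))) :
    ShE c i E F := by
  classical
  intro F' hF'
  refine Set.infinite_of_injOn_mapsTo (f := fun N => N + s)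
    (fun a _ b _ hab => Nat.add_right_cancel hab) ?_
    (hF (F'.image (fun a => a + s)) (Finset.image_subset_image hF'))
  intro N hN a ha
  have h2 := hN (a + s) (ha.imp (fun h => Finset.mem_image_of_mem _ h) (fun h => hE a h))
  have h3 : N + (a + s) = N + s + a := by ring
  rw [h3] at h2
  refine h2.trans ?_
  rw [Finset.mem_image]
  constructor
  · rintro ⟨b, hb, hbx⟩
    have : b = a := Nat.add_right_cancel hbx
    rw [← this]
    exact hb
  · exact fun h => ⟨a, h, rfl⟩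

/-- the main contradiction -/
theorem not_denseT {r : ℕ} (c : ℕ → Fin r) (k : ℕ) (hk : 1 ≤ k)
    (hD : ∀ (J : ℕ) (α : Fin J → ℝ) (ρ : ℝ), 0 < ρ → UBDm (badT c k ∩ near (k + 1) α ρ)) :
    False := by
  classical
  obtain ⟨H, hinc, hadm, htree, hinv⟩ := blocksT (m := k + 1) (by omega) (badT_translate c k)
    (fun z hz => hz.1) hD
    (fun (q : Fin r × (Fin (k + 1) → ℕ)) (F : Finset ℕ) => ShE c q.1 (gaps q.2) F)
    (fun G => (Finset.univ : Finset (Fin r)) ×ˢ Fintype.piFinset (fun _ => G))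
  obtain ⟨i, B, hBinf, hBH, j₀, z, hz, hRz, hsh⟩ := shatterT (m := k + 1) (by omega) c H hinc hadm
    (fun z : Fin (k + 1) → ℕ => (fun a => (z a : ℤ)) ∈ badT c k)
    (fun n => ⟨n, le_rfl, H n, subset_rfl, Set.subset_univ _, htree n⟩)
  -- every finite subset is in every stage
  have hst : ∀ α : Ordinal.{0}, ∀ F : Finset ℕ, ↑F ⊆ B → Sg (ShE c i (gaps z)) α F := by
    intro α
    induction α using WellFoundedLT.induction with
    | _ α ih =>
      intro F hF
      by_contra hnot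
      have hj : ∀ x ∈ F, ∃ j, x ∈ H j := fun x hx => hBH x (hF (Finset.mem_coe.mpr hx))
      choose! jf hjf using hj
      obtain ⟨y, hyB, hy⟩ : ∃ y ∈ B, y ∉ (Finset.range (F.sup jf + j₀ + 1)).biUnion H := by
        by_contra hcon
        push Not at hcon
        exact hBinf ((Finset.finite_toSet _).subset hcon)
      obtain ⟨j, hyj⟩ := hBH y hyB
      have hjgt : F.sup jf + j₀ < j := by
        by_contra hle
        exact hy (Finset.mem_biUnion.mpr ⟨j, Finset.mem_range.mpr (by omega), hyj⟩)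
      have h1 : ∀ x ∈ F, ∃ i' < j, x ∈ H i' := fun x hx =>
        ⟨jf x, by
          have := Finset.le_sup (f := jf) hx
          omega, hjf x hx⟩
      have hj₀ : ∀ u ∈ H j₀, u ∈ (Finset.range j).biUnion H := fun u hu =>
        Finset.mem_biUnion.mpr ⟨j₀, Finset.mem_range.mpr (by omega), hu⟩
      obtain ⟨β, hβ, hβ2⟩ := hinv j (i, z)
        (Finset.mem_product.mpr ⟨Finset.mem_univ _, Fintype.mem_piFinset.mpr
          (fun a => hj₀ _ (hz a).1)⟩)
        F h1 (hsh F hF) α hnot y hyj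
      refine hβ2 (ih β hβ (insert y F) ?_)
      intro a ha
      rcases Finset.mem_insert.mp (Finset.mem_coe.mp ha) with rfl | ha
      · exact hyB
      · exact hF (Finset.mem_coe.mpr ha)
  -- the contradiction
  obtain ⟨hmono, hbad⟩ := hRz
  have hle : ∀ a, z 0 ≤ z a := by
    intro a
    have h1 := hmono.monotone (Fin.zero_le a)
    exact_mod_cast h1
  refine hbad ?_
  set zz : Fin (k + 1) → ℕ := fun a => ((z a : ℤ) - (z 0 : ℤ)).toNat with hzz
  have hzza : ∀ a, zz a + z 0 = z a := by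
    intro a
    have h1 := hle a
    simp only [hzz]
    omega
  refine ⟨i, fam_of_Sg (ShE c i (gaps zz)) (Finset.univ.image zz) (fun α => ?_)⟩
  refine Sg_shift (ShE c i (gaps zz)) (ShE c i (gaps z)) (z 0) (fun F hF => ?_) α _ ?_
  · refine ShE_shift c i (z 0) (gaps zz) (gaps z) ?_ F hF
    rintro x ⟨a, b, h1, h2, h3, h4⟩
    refine ⟨a, b, h1, h2, ?_, ?_⟩
    · rw [← hzza a]
      exact Nat.add_lt_add_right h3 _
    · rw [← hzza b]
      exact Nat.add_lt_add_right h4 _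
  refine hst α _ ?_
  intro x hx
  obtain ⟨y, hy, rfl⟩ := Finset.mem_image.mp (Finset.mem_coe.mp hx)
  obtain ⟨a, _, rfl⟩ := Finset.mem_image.mp hy
  rw [hzza a]
  exact (hz a).2

theorem bohN_neg {J : ℕ} {α : Fin J → ℝ} {ρ : ℝ} {h : ℤ} (hh : h ∈ Boh α ρ) : -h ∈ Boh α ρ := by
  intro i
  obtain ⟨m, hm⟩ := hh i
  refine ⟨-m, ?_⟩
  push_cast
  rw [show -(h : ℝ) * α i - -(m : ℝ) = -((h : ℝ) * α i - m) by ring, abs_neg]
  exact hm

theorem bohN_add {J : ℕ} {α : Fin J → ℝ} {ρ : ℝ} {h h' : ℤ} (hh : h ∈ Boh α (ρ / 2))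
    (hh' : h' ∈ Boh α (ρ / 2)) : h + h' ∈ Boh α ρ := by
  intro i
  obtain ⟨m, hm⟩ := hh i
  obtain ⟨m', hm'⟩ := hh' i
  refine ⟨m + m', ?_⟩
  push_cast
  calc |((h : ℝ) + h') * α i - (m + m')| = |((h : ℝ) * α i - m) + ((h' : ℝ) * α i - m')| := by
        congr 1; ring
    _ ≤ |(h : ℝ) * α i - m| + |(h' : ℝ) * α i - m'| := abs_add_le _ _
    _ < ρ := by linarith

theorem bohN_zero {J : ℕ} {α : Fin J → ℝ} {ρ : ℝ} (hρ : 0 < ρ) : (0 : ℤ) ∈ Boh α ρ := by
  intro i
  exact ⟨0, by simpa using hρ⟩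

open Classical in
theorem bohr_st {r : ℕ} (c : ℕ → Fin r) (k : ℕ) (hk : 1 ≤ k) :
    ∃ (J : ℕ) (α : Fin J → ℝ) (ρ : ℝ), 0 < ρ ∧ ∀ ε : ℝ, 0 < ε → ∃ X₀ : ℕ, ∀ X : ℕ, X₀ ≤ X →
      ∀ b : Fin k → ℕ, (((Fintype.piFinset (fun i => Finset.Ioc (b i) (b i + X))).filter (fun a : Fin k → ℕ =>
        StrictMono a ∧ (∀ i j, ∃ m : ℤ, |(a i : ℝ) * α j - m| < ρ) ∧
        ¬ FamT c (Fin.cons 0 a : Fin (k + 1) → ℕ))).card : ℝ) ≤ ε * (X : ℝ) ^ k := by
  by_contra hcon
  push Not at hcon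
  refine not_denseT c k hk ?_
  intro J α ρ hρ
  obtain ⟨ε, hε, hX⟩ := hcon J α (ρ / 2) (by positivity)
  obtain ⟨A, hA⟩ : ∃ A : Set (Fin k → ℤ), ∀ a : Fin k → ℤ, a ∈ A ↔
      (StrictMono a ∧ (∀ i, 0 < a i) ∧ (∀ i, a i ∈ Boh α (ρ / 2)) ∧
        ¬ FamT c (fun j => ((Fin.cons 0 a : Fin (k + 1) → ℤ) j).toNat)) :=
    ⟨{a | StrictMono a ∧ (∀ i, 0 < a i) ∧ (∀ i, a i ∈ Boh α (ρ / 2)) ∧
      ¬ FamT c (fun j => ((Fin.cons 0 a : Fin (k + 1) → ℤ) j).toNat)}, fun _ => Iff.rfl⟩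
  refine shear A _ ?_ ?_
  · refine ⟨ε, hε, fun X₀ => ?_⟩
    obtain ⟨X, hX0, b, hb⟩ := hX (max X₀ 1)
    refine ⟨X, (le_max_left _ _).trans hX0, lt_of_lt_of_le one_pos ((le_max_right _ _).trans hX0),
      fun i => (b i : ℤ), ?_⟩
    refine hb.le.trans (Nat.cast_le.2 ?_)
    refine Finset.card_le_card_of_injOn (fun a i => (a i : ℤ)) ?_ ?_
    · intro a ha
      obtain ⟨h1, h2, h3, h4⟩ := Finset.mem_filter.1 (Finset.mem_coe.1 ha)
      have h5 := Fintype.mem_piFinset.1 h1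
      have hpos : ∀ i, 0 < a i := fun i => by
        have := (Finset.mem_Ioc.1 (h5 i)).1
        omega
      rw [Finset.mem_coe, Finset.mem_filter, hA]
      refine ⟨?_, ?_, ?_, ?_, ?_⟩
      · rw [cube, Fintype.mem_piFinset]
        intro i
        have h6 := Finset.mem_Ioc.1 (h5 i)
        rw [Finset.mem_Ioc]
        have h7 : ((b i : ℕ) : ℤ) < (a i : ℤ) := by exact_mod_cast h6.1
        have h8 : (a i : ℤ) ≤ (b i : ℤ) + (X : ℤ) := by exact_mod_cast h6.2
        exact ⟨h7, h8⟩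
      · intro i j hij
        have h6 : (a i : ℤ) < (a j : ℤ) := by exact_mod_cast h2 hij
        exact h6
      · intro i
        have h6 : (0 : ℤ) < (a i : ℤ) := by exact_mod_cast hpos i
        exact h6
      · intro i j
        obtain ⟨m, hm⟩ := h3 i j
        exact ⟨m, by simpa using hm⟩
      · have h6 : (fun j => ((Fin.cons 0 (fun i => (a i : ℤ)) : Fin (k + 1) → ℤ) j).toNat) =
            (Fin.cons 0 a : Fin (k + 1) → ℕ) := by
          funext j
          refine Fin.cases ?_ (fun j => ?_) j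
          · simp
          · simp
        rw [h6]
        exact h4
    · intro a _ a' _ haa
      funext i
      have h6 : (a i : ℤ) = (a' i : ℤ) := congrFun haa i
      exact_mod_cast h6
  · intro a haA t _
    obtain ⟨h1, h2, h3, h4⟩ := (hA a).mp haA
    refine ⟨⟨?_, ?_⟩, ?_⟩
    · intro i j hij
      revert hij
      refine Fin.cases ?_ (fun i => ?_) i
      · refine Fin.cases ?_ (fun j => ?_) j
        · intro h
          exact absurd h (lt_irrefl _)
        · intro _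
          rw [Fin.cons_zero, Fin.cons_succ]
          have := h2 j
          linarith
      · refine Fin.cases ?_ (fun j => ?_) j
        · intro h
          exact absurd h (Fin.not_lt_zero _)
        · intro h
          rw [Fin.cons_succ, Fin.cons_succ]
          have := h1 (Fin.succ_lt_succ_iff.1 h)
          linarith
    · have h6 : (fun j => ((Fin.cons t (fun i => t + a i) : Fin (k + 1) → ℤ) j -
          (Fin.cons t (fun i => t + a i) : Fin (k + 1) → ℤ) 0).toNat) =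
          (fun j => ((Fin.cons 0 a : Fin (k + 1) → ℤ) j).toNat) := by
        funext j
        refine Fin.cases ?_ (fun j => ?_) j
        · simp
        · simp
      rw [h6]
      exact h4
    · intro i j
      have key : ∀ i : Fin (k + 1), ∃ h : ℤ, h ∈ Boh α (ρ / 2) ∧
          (Fin.cons t (fun i => t + a i) : Fin (k + 1) → ℤ) i = t + h := by
        intro i
        refine Fin.cases ⟨0, bohN_zero (by positivity), by simp⟩ (fun i => ⟨a i, h3 i, by simp⟩) i
      obtain ⟨h, hh, hi⟩ := key i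
      obtain ⟨h', hh', hj⟩ := key j
      rw [hi, hj]
      have h5 : t + h - (t + h') = h + -h' := by ring
      rw [h5]
      exact bohN_add hh (bohN_neg hh')

end Pool.Agent.H92.ST
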