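import Pool.Agent.H92.ST.Main
import Pool.Agent.H74.BT.Syn

/-!
[H92 ST MAINZ]  The strong form for all tuples of integers.
-/

namespace Pool.Agent.H92.ST

open Filter Pool.Agent.H92.BH Pool.Agent.H74.BT

/-- `b` is not in `A`, an odd number of elements of `A` are below `b` and at least one is above `b` -/
def InGapZ (A : Finset ℤ) (b : ℤ) : Prop :=
  b ∉ A ∧ Odd (A.filter (fun x => x < b)).card ∧ ∃ x ∈ A, b < x

def ExactZ {r : ℕ} (c : ℕ → Fin r) (i : Fin r) (A F : Finset ℤ) : Prop :=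
  ∀ F' : Finset ℤ, F' ⊆ F → {N : ℕ | ∀ b : ℤ, (b ∈ F ∨ InGapZ A b) →
    ((((N : ℤ) + b).toNat.Prime ∧ c ((N : ℤ) + b).toNat = i) ↔ b ∈ F')}.Infinite

def ExtZ {r : ℕ} (c : ℕ → Fin r) (A : Finset ℤ) : Prop :=
  ∃ (i : Fin r) (𝓕 : Set (Finset ℤ)), A ∈ 𝓕 ∧
    ∀ F ∈ 𝓕, A ⊆ F ∧ ExactZ c i A F ∧ UD {y : ℕ | insert (y : ℤ) F ∈ 𝓕}

theorem gap_of_inGapZ {m : ℕ} (z : Fin m → ℤ) (hz : StrictMono z) (b : ℤ)
    (hb : InGapZ (Finset.univ.image z) b) :
    ∃ a a' : Fin m, (a : ℕ) % 2 = 0 ∧ (a' : ℕ) = a + 1 ∧ z a < b ∧ b < z a' := by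
  classical
  obtain ⟨h1, h2, x, hx, hbx⟩ := hb
  have hcard : ((Finset.univ.image z).filter (fun x => x < b)).card =
      (Finset.univ.filter (fun j => z j < b)).card := by
    rw [Finset.filter_image, Finset.card_image_of_injective _ hz.injective]
  rw [hcard] at h2
  set n := (Finset.univ.filter (fun j => z j < b)).card with hn
  have key : ∀ i : Fin m, (i : ℕ) < n ↔ z i < b := by
    intro i
    have h3 := Tuple.lt_card_lt_iff_apply_lt_of_monotone (f := z) (a := b) (j := i) hz.monotone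
    rw [hn]
    exact h3
  obtain ⟨i₀, -, rfl⟩ := Finset.mem_image.mp hx
  have hi₀ : ¬ (i₀ : ℕ) < n := fun h => absurd ((key i₀).mp h) (by linarith)
  have hn0 : 0 < n := h2.pos
  have hnm : n < m := by
    have := i₀.2
    omega
  refine ⟨⟨n - 1, by omega⟩, ⟨n, hnm⟩, ?_, ?_, ?_, ?_⟩
  · obtain ⟨q, hq⟩ := h2
    show (n - 1) % 2 = 0
    omega
  · show n = n - 1 + 1
    omega
  · exact (key _).mp (show n - 1 < n by omega)
  · have h5 : ¬ z ⟨n, hnm⟩ < b := fun h => absurd ((key ⟨n, hnm⟩).mpr h) (lt_irrefl n)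
    refine lt_of_le_of_ne (not_lt.mp h5) ?_
    intro h6
    exact h1 (Finset.mem_image.mpr ⟨⟨n, hnm⟩, Finset.mem_univ _, h6.symm⟩)

theorem extZ_of_famT {r m : ℕ} (c : ℕ → Fin r) (z : Fin m → ℕ) (hz : StrictMono z) (s : ℕ)
    (A : Finset ℤ) (hA : A = Finset.univ.image (fun a => (z a : ℤ) - s)) (hf : FamT c z) :
    ExtZ c A := by
  classical
  obtain ⟨i, 𝓕, h0, h1⟩ := hf
  let g : ℕ → ℤ := fun x => (x : ℤ) - s
  have hg : Function.Injective g := by
    intro a b hab
    have hab' : (a : ℤ) - s = (b : ℤ) - s := hab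
    omega
  have hAg : (Finset.univ.image z).image g = A := by
    rw [hA, Finset.image_image]
    rfl
  have hzA : StrictMono (fun a => (z a : ℤ) - s) := by
    intro a b hab
    have h2 : (z a : ℤ) < z b := by exact_mod_cast hz hab
    show (z a : ℤ) - s < (z b : ℤ) - s
    linarith
  refine ⟨i, {F' | ∃ F ∈ 𝓕, Finset.univ.image z ⊆ F ∧ F' = F.image g},
    ⟨_, h0, subset_rfl, hAg.symm⟩, ?_⟩
  rintro _ ⟨F, hF, hzF, rfl⟩
  refine ⟨?_, ?_, ?_⟩
  · rw [← hAg]
    exact Finset.image_subset_image hzF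
  · intro E' hE'
    set E : Finset ℕ := F.filter (fun x => g x ∈ E') with hE
    refine Set.infinite_of_injOn_mapsTo (f := fun N => N + s)
      (fun a _ b _ hab => Nat.add_right_cancel hab) ?_ ((h1 F hF).1 E (Finset.filter_subset _ _))
    intro N hN b hb
    have hx : ∃ x : ℕ, g x = b ∧ (x ∈ F ∨ x ∈ gaps z) := by
      rcases hb with hb | hb
      · obtain ⟨x, hx, hxb⟩ := Finset.mem_image.mp hb
        exact ⟨x, hxb, Or.inl hx⟩
      · rw [hA] at hb
        obtain ⟨a, a', ha1, ha2, ha3, ha4⟩ := gap_of_inGapZ _ hzA b hb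
        have ha3' : (z a : ℤ) - s < b := ha3
        have ha4' : b < (z a' : ℤ) - s := ha4
        have hnn : (0 : ℤ) ≤ z a := Int.natCast_nonneg _
        refine ⟨(b + s).toNat, ?_, Or.inr ⟨a, a', ha1, ha2, ?_, ?_⟩⟩
        · show (((b + s).toNat : ℕ) : ℤ) - s = b
          omega
        · omega
        · omega
    obtain ⟨x, hxb, hx⟩ := hx
    have h2 := hN x hx
    have h3 : (((N + s : ℕ) : ℤ) + b).toNat = N + x := by
      have h4 : (x : ℤ) - s = b := hxb
      omega
    show ((((N + s : ℕ) : ℤ) + b).toNat.Prime ∧ c (((N + s : ℕ) : ℤ) + b).toNat = i) ↔ b ∈ E'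
    rw [h3, h2, hE, Finset.mem_filter, hxb]
    constructor
    · exact fun h => h.2
    · intro h
      refine ⟨?_, h⟩
      obtain ⟨x', hx', hx'b⟩ := Finset.mem_image.mp (hE' h)
      have h5 : x' = x := hg (hx'b.trans hxb.symm)
      rw [← h5]
      exact hx'
  · refine UD_mono ?_ (UD_shift' s (h1 F hF).2)
    intro y hy
    have hy' : insert (y + s) F ∈ 𝓕 := hy
    refine ⟨insert (y + s) F, hy', hzF.trans (Finset.subset_insert _ _), ?_⟩
    rw [Finset.image_insert]
    congr 1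
    show (y : ℤ) = ((y + s : ℕ) : ℤ) - s
    push_cast
    ring

/-- pigeonhole for positive upper Banach density -/
theorem ubdm_fiber {m : ℕ} {T : Type} [Fintype T] (f : (Fin m → ℤ) → T) (E : Set (Fin m → ℤ))
    (hE : UBDm E) : ∃ t : T, UBDm {z | z ∈ E ∧ f z = t} := by
  classical
  obtain ⟨δ, hδ, h⟩ := hE
  have hT : 0 < Fintype.card T := Fintype.card_pos_iff.mpr ⟨f (fun _ => 0)⟩
  have hTR : (0 : ℝ) < Fintype.card T := by exact_mod_cast hT
  by_contra hcon
  push Not at hcon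
  have h2 : ∀ t : T, ∃ X₀ : ℕ, ∀ X : ℕ, X₀ ≤ X → 0 < X → ∀ z : Fin m → ℤ,
      (((cube z X).filter (fun x => x ∈ E ∧ f x = t)).card : ℝ) <
        δ / Fintype.card T * (X : ℝ) ^ m := by
    intro t
    by_contra hno
    push Not at hno
    refine hcon t ⟨δ / Fintype.card T, by positivity, fun X₀ => ?_⟩
    obtain ⟨X, hX, hX0, z, hz⟩ := hno X₀
    refine ⟨X, hX, hX0, z, hz.trans (le_of_eq ?_)⟩
    congr 2
    ext x
    simp only [Finset.mem_filter, Set.mem_ofPred_eq]
  choose X₀ hX₀ using h2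
  obtain ⟨X, hX, hX0, z, hz⟩ := h (Finset.univ.sup X₀)
  have h3 : (((cube z X).filter (fun x => x ∈ E)).card : ℝ) =
      ∑ t : T, (((cube z X).filter (fun x => x ∈ E ∧ f x = t)).card : ℝ) := by
    rw [Finset.card_eq_sum_card_fiberwise (f := f) (t := Finset.univ) (fun _ _ => Finset.mem_univ _)]
    push_cast
    refine Finset.sum_congr rfl fun t _ => ?_
    congr 2
    ext x
    simp only [Finset.mem_filter]
    tauto
  have h4 : ∑ t : T, (((cube z X).filter (fun x => x ∈ E ∧ f x = t)).card : ℝ) <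
      ∑ _t : T, δ / Fintype.card T * (X : ℝ) ^ m := by
    refine Finset.sum_lt_sum_of_nonempty ?_ fun t _ =>
      hX₀ t X ((Finset.le_sup (Finset.mem_univ t)).trans hX) hX0 z
    exact Finset.univ_nonempty_iff.mpr (Fintype.card_pos_iff.mp hT)
  rw [← h3, Finset.sum_const, Finset.card_univ, nsmul_eq_mul] at h4
  have h5 : (Fintype.card T : ℝ) * (δ / Fintype.card T * (X : ℝ) ^ m) = δ * (X : ℝ) ^ m := by
    field_simp
  rw [h5] at h4
  exact absurd hz (not_le.mpr h4)

/-- permutation of the coordinates -/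
theorem ubdm_perm {m : ℕ} (σ : Equiv.Perm (Fin m)) (E E' : Set (Fin m → ℤ))
    (h : ∀ z ∈ E, (z ∘ σ) ∈ E') (hE : UBDm E) : UBDm E' := by
  classical
  obtain ⟨δ, hδ, hX⟩ := hE
  refine ⟨δ, hδ, fun X₀ => ?_⟩
  obtain ⟨X, hX1, hX0, z, hz⟩ := hX X₀
  refine ⟨X, hX1, hX0, z ∘ σ, hz.trans (Nat.cast_le.mpr ?_)⟩
  refine Finset.card_le_card_of_injOn (fun x => x ∘ σ) ?_ ?_
  · intro x hx
    obtain ⟨h1, h2⟩ := Finset.mem_filter.mp (Finset.mem_coe.mp hx)
    refine Finset.mem_coe.mpr (Finset.mem_filter.mpr ⟨?_, h x h2⟩)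
    rw [cube, Fintype.mem_piFinset] at h1 ⊢
    intro i
    exact h1 (σ i)
  · intro x _ y _ hxy
    funext i
    have h1 := congrFun hxy (σ.symm i)
    simpa using h1

open Classical in
theorem bohr_stZ {r : ℕ} (c : ℕ → Fin r) (k : ℕ) (hk : 1 ≤ k) :
    ∃ (J : ℕ) (α : Fin J → ℝ) (ρ : ℝ), 0 < ρ ∧ ∀ ε : ℝ, 0 < ε → ∃ X₀ : ℕ, ∀ X : ℕ, X₀ ≤ X →
      ∀ b : Fin k → ℤ, (((cube b X).filter (fun a : Fin k → ℤ => (∀ j, a j ∈ Boh α ρ) ∧
        ¬ ExtZ c (insert 0 (Finset.univ.image a)))).card : ℝ) ≤ ε * (X : ℝ) ^ k := by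
  by_contra hcon
  push Not at hcon
  refine not_denseT c k hk ?_
  intro J α ρ hρ
  obtain ⟨ε, hε, hX⟩ := hcon J α (ρ / 2) (by positivity)
  obtain ⟨A, hA⟩ : ∃ A : Set (Fin k → ℤ), ∀ a : Fin k → ℤ, a ∈ A ↔
      ((∀ i, a i ∈ Boh α (ρ / 2)) ∧ ¬ ExtZ c (insert 0 (Finset.univ.image a))) :=
    ⟨{a | (∀ i, a i ∈ Boh α (ρ / 2)) ∧ ¬ ExtZ c (insert 0 (Finset.univ.image a))},
      fun _ => Iff.rfl⟩
  obtain ⟨U, hU⟩ : ∃ U : Set (Fin (k + 1) → ℤ), ∀ z : Fin (k + 1) → ℤ, z ∈ U ↔
      ((Function.Injective z ∧ ¬ FamT c (fun a => (z (Tuple.sort z a) -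
        z (Tuple.sort z 0)).toNat)) ∧ z ∈ near (k + 1) α ρ) := ⟨{z | (Function.Injective z ∧
      ¬ FamT c (fun a => (z (Tuple.sort z a) - z (Tuple.sort z 0)).toNat)) ∧
        z ∈ near (k + 1) α ρ}, fun _ => Iff.rfl⟩
  have hUU : UBDm U := by
    refine shear A _ ?_ ?_
    · refine ⟨ε, hε, fun X₀ => ?_⟩
      obtain ⟨X, hX0, b, hb⟩ := hX (max X₀ 1)
      refine ⟨X, (le_max_left _ _).trans hX0,
        lt_of_lt_of_le one_pos ((le_max_right _ _).trans hX0), b, ?_⟩
      refine hb.le.trans (le_of_eq ?_)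
      congr 2
      ext x
      simp only [Finset.mem_filter, hA]
    · intro a haA t hinj
      obtain ⟨h3, h4⟩ := (hA a).mp haA
      rw [hU]
      set z : Fin (k + 1) → ℤ := Fin.cons t (fun i => t + a i) with hz
      refine ⟨⟨hinj, ?_⟩, ?_⟩
      · intro hfam
        refine h4 ?_
        set σ := Tuple.sort z with hσ
        have hmono : StrictMono (z ∘ σ) :=
          (Tuple.monotone_sort z).strictMono_of_injective (hinj.comp σ.injective)
        have hle : ∀ j, z (σ 0) ≤ z j := by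
          intro j
          have h5 : z (Tuple.sort z 0) ≤ z (Tuple.sort z ((Tuple.sort z).symm j)) :=
            (Tuple.monotone_sort z) (Fin.zero_le ((Tuple.sort z).symm j))
          rw [Equiv.apply_symm_apply] at h5
          exact h5
        have hle2 : ∀ j, z (σ 0) ≤ z (σ j) := fun j => hle _
        refine extZ_of_famT c (fun a => (z (σ a) - z (σ 0)).toNat) ?_ (t - z (σ 0)).toNat _ ?_ hfam
        · intro i j hij
          have h5 : z (σ i) < z (σ j) := hmono hij
          have h6 := hle2 i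
          show (z (σ i) - z (σ 0)).toNat < (z (σ j) - z (σ 0)).toNat
          omega
        · have h00 : z (σ 0) ≤ t := by
            have := hle 0
            rwa [hz, Fin.cons_zero, ← hz] at this
          ext x
          rw [Finset.mem_insert, Finset.mem_image, Finset.mem_image]
          constructor
          · rintro (rfl | ⟨j, -, rfl⟩)
            · refine ⟨σ.symm 0, Finset.mem_univ _, ?_⟩
              rw [Equiv.apply_symm_apply]
              have h5 : z 0 = t := by rw [hz, Fin.cons_zero]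
              rw [h5]
              omega
            · refine ⟨σ.symm j.succ, Finset.mem_univ _, ?_⟩
              rw [Equiv.apply_symm_apply]
              have h5 : z j.succ = t + a j := by rw [hz, Fin.cons_succ]
              have h6 := hle j.succ
              rw [h5] at h6 ⊢
              omega
          · rintro ⟨j, -, rfl⟩
            have h6 := hle2 j
            have h7 : (((z (σ j) - z (σ 0)).toNat : ℕ) : ℤ) - (((t - z (σ 0)).toNat : ℕ) : ℤ) =
                z (σ j) - t := by omega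
            rw [h7]
            generalize σ j = i
            revert i
            intro i
            refine Fin.cases ?_ (fun i => ?_) i
            · left
              rw [hz, Fin.cons_zero, sub_self]
            · right
              refine ⟨i, Finset.mem_univ _, ?_⟩
              rw [hz, Fin.cons_succ]
              ring
      · intro i j
        have key : ∀ i : Fin (k + 1), ∃ h : ℤ, h ∈ Boh α (ρ / 2) ∧ z i = t + h := by
          intro i
          refine Fin.cases ⟨0, bohN_zero (by positivity), by rw [hz, Fin.cons_zero, add_zero]⟩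
            (fun i => ⟨a i, h3 i, by rw [hz, Fin.cons_succ]⟩) i
        obtain ⟨h, hh, hi⟩ := key i
        obtain ⟨h', hh', hj⟩ := key j
        rw [hi, hj]
        have h5 : t + h - (t + h') = h + -h' := by ring
        rw [h5]
        exact bohN_add hh (bohN_neg hh')
  obtain ⟨σ, hσ⟩ := ubdm_fiber (fun z => Tuple.sort z) U hUU
  refine ubdm_perm σ _ _ ?_ hσ
  rintro z ⟨hzU, hzσ⟩
  obtain ⟨⟨h1, h2⟩, h3⟩ := (hU z).mp hzU
  have hzσ' : Tuple.sort z = σ := hzσ
  rw [hzσ'] at h2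
  refine ⟨⟨?_, h2⟩, fun i j => h3 (σ i) (σ j)⟩
  have h4 := (Tuple.monotone_sort z).strictMono_of_injective (h1.comp (Tuple.sort z).injective)
  rw [hzσ'] at h4
  exact h4

end Pool.Agent.H92.ST
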