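import Pool.Agent.H92.ST.TrA

/-!
[H92 ST TRB]  Products of trees are partition regular.

Proof.  Claim `(C t)` for `t ≤ m`: for all `s, d` there are `S, D` such that for all `R`, all `Y` with
`∀ a, Tr R S D (Y a)` and all `A` there are `Y' a ⊆ Y a` with `Tr R s d (Y' a)` and such that on the product of the
`Y' a` membership in `A` does not depend on the coordinates `a < t`: for `z, z'` in the product with
`z a = z' a` for all `a ≥ t`, `z ∈ A ↔ z' ∈ A`.
`(C 0)`: `S = s, D = d`, `Y' = Y`.
`(C t) → (C (t+1))`: given `s, d` let `N = m ^ d * s`, `q = 2 ^ (N ^ m)` (or any bound for the number of functions from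
the product of the other coordinates, each of size `≤ N`, to `Prop`), and let `S, D` be given by `(C t)` for
`(q s, q d)`.  Given `Y`, `(C t)` gives `Y¹`.  By `Tr_card` and `Tr_mono` (`s ≤ q s`), `Tr_anti` (`d ≤ q d`) replace `Y¹ a`, `a ≠ t`, by subsets
`Y² a` with at most `N` elements and `Tr R s d`; `Y² t = Y¹ t`.  Colour `x ∈ Y¹ t` by the set of those `w` in the product
of the `Y² a`, `a ≠ t` (encode `w` as a full tuple with any fixed entry, e.g. `0`, at `t`: the colour is a subset of
`Fintype.piFinset (Function.update Y² t {0})`, which has at most `N ^ (m-1)` elements, the power set at most `q`), for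
which `Function.update w t x ∈ A`.  `Tr_col` (after `Tr_mono` and `Tr_anti`, the number of colours is at most `q`) gives `Y' t ⊆ Y¹ t` with one
colour and `Tr R s d (Y' t)`.  `Y' a = Y² a` for the other `a`.
`(C m)`: membership in `A` is constant on the product (which may be empty: then both alternatives hold).
-/

namespace Pool.Agent.H92.ST

open Filter Pool.Agent.H92.BH

private theorem Tr_prod_aux {m : ℕ} (hm : 1 ≤ m) (t : ℕ) : ∀ s d : ℕ, ∃ S D : ℕ,
    ∀ (R : (Fin m → ℕ) → Prop) (Y : Fin m → Finset ℕ), (∀ a, Tr R S D (Y a)) →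
      ∀ A : Set (Fin m → ℕ), ∃ Y' : Fin m → Finset ℕ, (∀ a, Y' a ⊆ Y a) ∧ (∀ a, Tr R s d (Y' a)) ∧
        ∀ z z' : Fin m → ℕ, (∀ a, z a ∈ Y' a) → (∀ a, z' a ∈ Y' a) →
          (∀ a : Fin m, t ≤ (a : ℕ) → z a = z' a) → (z ∈ A ↔ z' ∈ A) := by
  classical
  induction t with
  | zero =>
    intro s d
    refine ⟨s, d, fun R Y hY A => ⟨Y, fun a => Finset.Subset.refl _, hY, ?_⟩⟩
    intro z z' _ _ hz
    have : z = z' := funext fun a => hz a (Nat.zero_le _)
    rw [this]
  | succ t ih =>
    intro s d
    by_cases ht : t < m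
    swap
    · obtain ⟨S, D, h⟩ := ih s d
      refine ⟨S, D, fun R Y hY A => ?_⟩
      obtain ⟨Y', h1, h2, h3⟩ := h R Y hY A
      refine ⟨Y', h1, h2, fun z z' hz hz' _ => h3 z z' hz hz' (fun a ha => ?_)⟩
      exact absurd (lt_of_le_of_lt ha a.2) ht
    set N : ℕ := m ^ d * s with hN
    set q : ℕ := 2 ^ ((N + 1) ^ m) with hq
    have hq1 : 1 ≤ q := Nat.one_le_two_pow
    obtain ⟨S, D, h⟩ := ih (q * s) (q * d)
    refine ⟨S, D, fun R Y hY A => ?_⟩
    obtain ⟨Y1, hY1, hT1, hA1⟩ := h R Y hY A
    set t' : Fin m := ⟨t, ht⟩ with ht'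
    have hs1 : s ≤ q * s := Nat.le_mul_of_pos_left s hq1
    have hd1 : d ≤ q * d := Nat.le_mul_of_pos_left d hq1
    have hT2 : ∀ a, Tr R s d (Y1 a) := fun a =>
      Tr_anti hm hd1 (Tr_mono hs1 (Finset.Subset.refl _) (fun _ _ h => h) (hT1 a))
    have hX : ∀ a, ∃ X' ⊆ Y1 a, X'.card ≤ N ∧ Tr R s d X' := fun a => Tr_card (hT2 a)
    choose X hXs hXc hXT using hX
    by_cases hne : (Y1 t').Nonempty
    swap
    · refine ⟨Y1, hY1, hT2, fun z z' hz _ _ => ?_⟩
      exact absurd ⟨z t', hz t'⟩ hne
    set B : Finset (Fin m → ℕ) := Fintype.piFinset (Function.update X t' {0}) with hB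
    have hBc : B.card ≤ (N + 1) ^ m := by
      rw [hB, Fintype.card_piFinset]
      have h1 : ∏ i : Fin m, (Function.update X t' {0} i).card ≤ ∏ _i : Fin m, (N + 1) := by
        refine Finset.prod_le_prod (fun _ _ => Nat.zero_le _) (fun a _ => ?_)
        by_cases ha : a = t'
        · subst ha
          rw [Function.update_self, Finset.card_singleton]
          omega
        · rw [Function.update_of_ne ha]
          exact (hXc a).trans (Nat.le_succ _)
      rw [Finset.prod_const, Finset.card_univ, Fintype.card_fin] at h1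
      exact h1
    set χ : ℕ → Finset (Fin m → ℕ) := fun x => B.filter (fun w => Function.update w t' x ∈ A) with hχ
    have hχQ : ∀ x ∈ Y1 t', χ x ∈ B.powerset := fun x _ =>
      Finset.mem_powerset.2 (Finset.filter_subset _ _)
    have hQc : B.powerset.card ≤ q := by
      rw [Finset.card_powerset, hq]
      exact Nat.pow_le_pow_right (by norm_num) hBc
    have hT3 : Tr R (B.powerset.card * s) (B.powerset.card * d) (Y1 t') :=
      Tr_anti hm (Nat.mul_le_mul_right d hQc)
        (Tr_mono (Nat.mul_le_mul_right s hQc) (Finset.Subset.refl _) (fun _ _ h => h) (hT1 t'))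
    obtain ⟨c, _, hc⟩ := Tr_col hm B.powerset χ hne hχQ hT3
    refine ⟨Function.update X t' ((Y1 t').filter (fun x => χ x = c)), ?_, ?_, ?_⟩
    · intro a
      by_cases ha : a = t'
      · subst ha
        rw [Function.update_self]
        exact (Finset.filter_subset _ _).trans (hY1 _)
      · rw [Function.update_of_ne ha]
        exact (hXs a).trans (hY1 a)
    · intro a
      by_cases ha : a = t'
      · subst ha
        rw [Function.update_self]
        convert hc
      · rw [Function.update_of_ne ha]
        exact hXT a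
    · intro z z' hz hz' hzz
      have h1 : z t' ∈ Y1 t' ∧ χ (z t') = c := by
        have := hz t'
        rw [Function.update_self, Finset.mem_filter] at this
        exact this
      have h2 : z' t' ∈ Y1 t' ∧ χ (z' t') = c := by
        have := hz' t'
        rw [Function.update_self, Finset.mem_filter] at this
        exact this
      have hzX : ∀ a, a ≠ t' → z a ∈ X a := by
        intro a ha
        have := hz a
        rwa [Function.update_of_ne ha] at this
      have hzX' : ∀ a, a ≠ t' → z' a ∈ X a := by
        intro a ha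
        have := hz' a
        rwa [Function.update_of_ne ha] at this
      set w : Fin m → ℕ := Function.update z t' 0 with hw
      have hwB : w ∈ B := by
        rw [hB, Fintype.mem_piFinset]
        intro a
        by_cases ha : a = t'
        · subst ha
          rw [hw, Function.update_self, Function.update_self]
          exact Finset.mem_singleton_self _
        · rw [hw, Function.update_of_ne ha, Function.update_of_ne ha]
          exact hzX a ha
      have e1 : Function.update w t' (z t') = z := by
        rw [hw, Function.update_idem, Function.update_eq_self]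
      have e2 : Function.update w t' (z' t') = Function.update z t' (z' t') := by
        rw [hw, Function.update_idem]
      have h3 : w ∈ χ (z t') ↔ z ∈ A := by
        rw [hχ]
        simp only [Finset.mem_filter, hwB, true_and]
        rw [e1]
      have h4 : w ∈ χ (z' t') ↔ Function.update z t' (z' t') ∈ A := by
        rw [hχ]
        simp only [Finset.mem_filter, hwB, true_and]
        rw [e2]
      have h5 : z ∈ A ↔ Function.update z t' (z' t') ∈ A := by
        rw [← h3, ← h4, h1.2, h2.2]
      rw [h5]
      refine hA1 _ _ ?_ ?_ ?_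
      · intro a
        by_cases ha : a = t'
        · subst ha
          rw [Function.update_self]
          exact h2.1
        · rw [Function.update_of_ne ha]
          exact hXs a (hzX a ha)
      · intro a
        by_cases ha : a = t'
        · subst ha
          exact h2.1
        · exact hXs a (hzX' a ha)
      · intro a ha
        by_cases hat : a = t'
        · subst hat
          rw [Function.update_self]
        · rw [Function.update_of_ne hat]
          refine hzz a ?_
          have h6 : (a : ℕ) ≠ t := fun h7 => hat (Fin.ext h7)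
          omega

theorem Tr_prod {m : ℕ} (hm : 1 ≤ m) (s d : ℕ) : ∃ S D : ℕ, ∀ (R : (Fin m → ℕ) → Prop)
    (Y : Fin m → Finset ℕ), (∀ a, Tr R S D (Y a)) → ∀ A : Set (Fin m → ℕ),
      ∃ Y' : Fin m → Finset ℕ, (∀ a, Y' a ⊆ Y a) ∧ (∀ a, Tr R s d (Y' a)) ∧
        ((∀ z : Fin m → ℕ, (∀ a, z a ∈ Y' a) → z ∈ A) ∨
          ∀ z : Fin m → ℕ, (∀ a, z a ∈ Y' a) → z ∉ A) := by
  obtain ⟨S, D, h⟩ := Tr_prod_aux hm m s d
  refine ⟨S, D, fun R Y hY A => ?_⟩
  obtain ⟨Y', h1, h2, h3⟩ := h R Y hY A
  refine ⟨Y', h1, h2, ?_⟩
  by_cases hex : ∃ z : Fin m → ℕ, (∀ a, z a ∈ Y' a) ∧ z ∈ A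
  · obtain ⟨z0, hz0, hz0A⟩ := hex
    left
    intro z hz
    refine (h3 z z0 hz hz0 (fun a ha => ?_)).2 hz0A
    exact absurd a.2 (not_lt.2 ha)
  · right
    intro z hz hzA
    exact hex ⟨z, hz, hzA⟩

end Pool.Agent.H92.ST
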