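import Pool.Agent.H92.ST.TrA
import Pool.Agent.H74.BT.Comp
import Pool.Agent.H74.BT.Prod
import Pool.Agent.H74.BT.Corr

/-!
[H92 ST TREEZ]  Trees of bad tuples with their structure.
-/

namespace Pool.Agent.H92.ST

open Finset Pool.Agent.H92.BH Pool.Agent.H74.BT

/-- trees of integers -/
def TrZ {m : ℕ} (𝓑 : Set (Fin m → ℤ)) (s : ℕ) : ℕ → Finset ℤ → Prop
  | 0, X => s ≤ X.card
  | d + 1, X => ∃ Y : Fin m → Finset ℤ, (∀ a, Y a ⊆ X) ∧ (∀ a, TrZ 𝓑 s d (Y a)) ∧
      ∀ z : Fin m → ℤ, (∀ a, z a ∈ Y a) → z ∈ 𝓑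

theorem TrZ_translate {m : ℕ} {𝓑 : Set (Fin m → ℤ)}
    (h𝓑 : ∀ z ∈ 𝓑, ∀ t : ℤ, (fun i => z i + t) ∈ 𝓑) (s d : ℕ) (t : ℤ) :
    ∀ X : Finset ℤ, TrZ 𝓑 s d X → TrZ 𝓑 s d (X.image (fun x => x + t)) := by
  classical
  induction d with
  | zero =>
    intro X hX
    have h1 : (X.image (fun x => x + t)).card = X.card :=
      Finset.card_image_of_injective _ (add_left_injective t)
    show s ≤ (X.image (fun x => x + t)).card
    rw [h1]
    exact hX
  | succ d ih =>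
    rintro X ⟨Y, h1, h2, h3⟩
    refine ⟨fun a => (Y a).image (fun x => x + t), fun a => Finset.image_subset_image (h1 a),
      fun a => ih _ (h2 a), ?_⟩
    intro z hz
    choose w hw1 hw2 using fun a => Finset.mem_image.mp (hz a)
    have h4 := h𝓑 w (h3 w hw1) t
    have h5 : (fun i => w i + t) = z := funext hw2
    rwa [h5] at h4

theorem TrZ_mono {m : ℕ} {𝓑 : Set (Fin m → ℤ)} {s d : ℕ} {X X' : Finset ℤ} (hX : X ⊆ X')
    (h : TrZ 𝓑 s d X) : TrZ 𝓑 s d X' := by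
  cases d with
  | zero => exact le_trans h (Finset.card_le_card hX)
  | succ d =>
    obtain ⟨Y, h1, h2, h3⟩ := h
    exact ⟨Y, fun a => (h1 a).trans hX, h2, h3⟩

theorem TrZ_nonempty {m : ℕ} (hm : 1 ≤ m) {𝓑 : Set (Fin m → ℤ)} {s d : ℕ} (hs : 1 ≤ s) :
    ∀ {X : Finset ℤ}, TrZ 𝓑 s d X → X.Nonempty := by
  induction d with
  | zero =>
    intro X h
    have h1 : s ≤ X.card := h
    exact Finset.card_pos.mp (by omega)
  | succ d ih =>
    rintro X ⟨Y, h1, h2, -⟩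
    exact (ih (h2 ⟨0, hm⟩)).mono (h1 _)

theorem treesZ {m : ℕ} (hm : 1 ≤ m) {𝓑 : Set (Fin m → ℤ)}
    (h𝓑 : ∀ z ∈ 𝓑, ∀ t : ℤ, (fun i => z i + t) ∈ 𝓑)
    (H : ∀ (J : ℕ) (α : Fin J → ℝ) (ρ : ℝ), 0 < ρ → UBDm (𝓑 ∩ near m α ρ)) (s : ℕ) (hs : 1 ≤ s)
    (d : ℕ) : ∀ S : Set ℤ, UBD S → ∃ X : Finset ℤ, TrZ 𝓑 s d X ∧ ∀ x ∈ X, x ∈ S := by
  classical
  induction d with
  | zero =>
    rintro S ⟨δ, hδ, h⟩
    obtain ⟨L, hL, hL0, a, ha⟩ := h ⌈(s : ℝ) / δ⌉₊
    have h1 : (s : ℝ) ≤ δ * L := by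
      have h2 : (s : ℝ) / δ ≤ L := (Nat.le_ceil _).trans (by exact_mod_cast hL)
      rw [div_le_iff₀ hδ] at h2
      linarith
    have h3 : s ≤ cnt S a L := by exact_mod_cast h1.trans ha
    unfold cnt at h3
    obtain ⟨X, hX, hXc⟩ := Finset.exists_subset_card_eq h3
    exact ⟨X, hXc.ge, fun x hx => (Finset.mem_filter.1 (hX hx)).2⟩
  | succ d ih =>
    intro S hS
    obtain ⟨J, α, ρ, γ, hρ, hγ, hcor⟩ := corr_many hm hS
    obtain ⟨δ, hδ, hδX⟩ := H J α ρ hρ
    obtain ⟨X₁, hX₁⟩ := hcor δ hδ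
    obtain ⟨X₂, hX₂⟩ := prod (P := TrZ 𝓑 s d)
      (fun ε hε => comp (P := TrZ 𝓑 s d) (fun X t hX => TrZ_translate h𝓑 s d t X hX) ih hε) m
      (γ * δ) (mul_pos hγ hδ)
    obtain ⟨X, hX, hXpos, z, hz⟩ := hδX (max X₁ X₂)
    set 𝒞 : Finset (Fin m → ℤ) := (cube z X).filter (fun x => x ∈ 𝓑 ∩ near m α ρ) with h𝒞
    have hz' : δ * (X : ℝ) ^ m ≤ (𝒞.card : ℝ) := by
      rw [h𝒞]
      convert hz
    obtain ⟨t, ht⟩ := hX₁ X ((le_max_left _ _).trans hX) z 𝒞 (Finset.filter_subset _ _)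
      (fun C hC => (Finset.mem_filter.1 hC).2.2) hz'
    set E : Finset (Fin m → ℤ) := 𝒞.filter (fun C => ∀ i, t + C i ∈ S) with hE
    have hEc : γ * δ * (X : ℝ) ^ m ≤ (E.card : ℝ) := by
      refine le_trans ?_ ht
      rw [mul_assoc]
      exact mul_le_mul_of_nonneg_left hz' hγ.le
    obtain ⟨Y, hY, hYE⟩ := hX₂ X ((le_max_right _ _).trans hX) hXpos z E
      ((Finset.filter_subset _ _).trans (Finset.filter_subset _ _)) hEc
    have hT : TrZ 𝓑 s (d + 1) (Finset.univ.biUnion Y) :=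
      ⟨Y, fun a => Finset.subset_biUnion_of_mem Y (Finset.mem_univ a), hY, fun x hx =>
        (Finset.mem_filter.1 (Finset.mem_filter.1 (hYE x hx)).1).2.1⟩
    refine ⟨(Finset.univ.biUnion Y).image (fun x => x + t),
      TrZ_translate h𝓑 s (d + 1) t _ hT, ?_⟩
    intro x hx
    obtain ⟨y, hy, rfl⟩ := Finset.mem_image.1 hx
    obtain ⟨i, -, hi⟩ := Finset.mem_biUnion.1 hy
    have hne : ∀ i', (Y i').Nonempty := fun i' => TrZ_nonempty hm hs (hY i')
    choose q hq using hne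
    have h1 := hYE (Function.update q i y) (by
      intro i'
      by_cases h : i' = i
      · subst h
        rw [Function.update_self]
        exact hi
      · rw [Function.update_of_ne h]
        exact hq i')
    have h2 := (Finset.mem_filter.1 h1).2 i
    rw [Function.update_self, add_comm] at h2
    exact h2

theorem ubd_mult (W : ℕ) (hW : 0 < W) : UBD {x : ℤ | (W : ℤ) ∣ x} := by
  classical
  have hWR : (0 : ℝ) < W := by exact_mod_cast hW
  refine ⟨1 / W, by positivity, fun L₀ => ⟨W * (L₀ + 1), ?_, by positivity, 0, ?_⟩⟩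
  · have : 1 * (L₀ + 1) ≤ W * (L₀ + 1) := Nat.mul_le_mul_right _ hW
    omega
  · have h1 : (L₀ + 1) ≤ cnt {x : ℤ | (W : ℤ) ∣ x} 0 (W * (L₀ + 1)) := by
      unfold cnt
      have h2 : (Finset.range (L₀ + 1)).card ≤ ((Finset.Ioc (0 : ℤ) (0 + ((W * (L₀ + 1) : ℕ) : ℤ))).filter
          (fun n => n ∈ {x : ℤ | (W : ℤ) ∣ x})).card := by
        refine Finset.card_le_card_of_injOn (fun q : ℕ => (W : ℤ) * (q + 1)) ?_ ?_
        · intro q hq
          have hq' : q < L₀ + 1 := Finset.mem_range.1 hq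
          rw [Finset.mem_coe, Finset.mem_filter, Finset.mem_Ioc]
          have hWz : (0 : ℤ) < W := by exact_mod_cast hW
          refine ⟨⟨by positivity, ?_⟩, ?_⟩
          · push_cast
            have : (q : ℤ) + 1 ≤ L₀ + 1 := by omega
            nlinarith
          · exact Dvd.intro _ rfl
        · intro q _ q' _ hqq
          have hWz : (W : ℤ) ≠ 0 := by exact_mod_cast hW.ne'
          have := mul_left_cancel₀ hWz hqq
          omega
      rw [Finset.card_range] at h2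
      convert h2
    have h3 : ((L₀ + 1 : ℕ) : ℝ) ≤ (cnt {x : ℤ | (W : ℤ) ∣ x} 0 (W * (L₀ + 1)) : ℝ) := by
      exact_mod_cast h1
    refine le_trans (le_of_eq ?_) h3
    push_cast
    field_simp

/-- from trees of nonnegative integers to trees of naturals -/
theorem Tr_of_TrZ {m : ℕ} (hm : 1 ≤ m) {𝓑 : Set (Fin m → ℤ)} (hmono : ∀ z ∈ 𝓑, StrictMono z)
    {s d : ℕ} (hs : 1 ≤ s) : ∀ {X : Finset ℤ}, (∀ x ∈ X, 0 ≤ x) → TrZ 𝓑 s d X →
      Tr (fun z : Fin m → ℕ => (fun a => (z a : ℤ)) ∈ 𝓑) s d (X.image Int.toNat) := by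
  classical
  induction d with
  | zero =>
    intro X h0 h
    show s ≤ (X.image Int.toNat).card
    rw [Finset.card_image_of_injOn]
    · exact h
    · intro a ha b hb hab
      have h1 := h0 a ha
      have h2 := h0 b hb
      have hab' : a.toNat = b.toNat := hab
      omega
  | succ d ih =>
    rintro X h0 ⟨Y, h1, h2, h3⟩
    have h0' : ∀ a, ∀ x ∈ Y a, 0 ≤ x := fun a x hx => h0 x (h1 a hx)
    refine ⟨fun a => (Y a).image Int.toNat, fun a => Finset.image_subset_image (h1 a),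
      fun a => ih (h0' a) (h2 a), ?_, ?_⟩
    · intro a b hab x hx y hy
      obtain ⟨x', hx', rfl⟩ := Finset.mem_image.mp hx
      obtain ⟨y', hy', rfl⟩ := Finset.mem_image.mp hy
      choose q hq using fun i => TrZ_nonempty hm hs (h2 i)
      have h4 := hmono _ (h3 (Function.update (Function.update q a x') b y') (by
        intro i
        by_cases hb : i = b
        · subst hb
          rw [Function.update_self]
          exact hy'
        · rw [Function.update_of_ne hb]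
          by_cases ha : i = a
          · subst ha
            rw [Function.update_self]
            exact hx'
          · rw [Function.update_of_ne ha]
            exact hq i)) hab
      rw [Function.update_self, Function.update_of_ne hab.ne, Function.update_self] at h4
      have h5 := h0' a x' hx'
      omega
    · intro z hz
      choose w hw1 hw2 using fun a => Finset.mem_image.mp (hz a)
      have h4 := h3 w hw1
      have h5 : (fun a => (z a : ℤ)) = w := by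
        funext a
        rw [← hw2 a]
        exact Int.toNat_of_nonneg (h0' a _ (hw1 a))
      show (fun a => (z a : ℤ)) ∈ 𝓑
      rw [h5]
      exact h4

theorem treesN {m : ℕ} (hm : 1 ≤ m) {𝓑 : Set (Fin m → ℤ)}
    (h𝓑 : ∀ z ∈ 𝓑, ∀ t : ℤ, (fun i => z i + t) ∈ 𝓑) (hmono : ∀ z ∈ 𝓑, StrictMono z)
    (H : ∀ (J : ℕ) (α : Fin J → ℝ) (ρ : ℝ), 0 < ρ → UBDm (𝓑 ∩ near m α ρ)) (s : ℕ)
    (d W : ℕ) (hW : 0 < W) : ∃ C : Finset ℕ, (∀ x ∈ C, W ∣ x) ∧ C.card ≤ m ^ d * s ∧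
      Tr (fun z : Fin m → ℕ => (fun a => (z a : ℤ)) ∈ 𝓑) s d C := by
  classical
  obtain ⟨X, hX1, hX2⟩ := treesZ hm h𝓑 H (max s 1) (le_max_right _ _) d {x : ℤ | (W : ℤ) ∣ x}
    (ubd_mult W hW)
  have hne := TrZ_nonempty hm (le_max_right s 1) hX1
  set t : ℤ := X.min' hne with ht
  have htX : t ∈ X := X.min'_mem hne
  have h1 := TrZ_translate h𝓑 (max s 1) d (-t) X hX1
  have h0 : ∀ x ∈ X.image (fun x => x + -t), 0 ≤ x := by
    intro x hx
    obtain ⟨y, hy, rfl⟩ := Finset.mem_image.mp hx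
    have := X.min'_le y hy
    omega
  have h2 := Tr_of_TrZ hm hmono (le_max_right s 1) h0 h1
  have h3 := Tr_mono (le_max_left s 1) subset_rfl (fun _ _ h => h) h2
  obtain ⟨C, hC1, hC2, hC3⟩ := Tr_card h3
  refine ⟨C, fun x hx => ?_, hC2, hC3⟩
  obtain ⟨y, hy, rfl⟩ := Finset.mem_image.mp (hC1 hx)
  obtain ⟨w, hw, rfl⟩ := Finset.mem_image.mp hy
  have h4 : (W : ℤ) ∣ w + -t := dvd_add (hX2 w hw) ((dvd_neg).mpr (hX2 t htX))
  have h5 := h0 _ hy
  have h6 : (((w + -t).toNat : ℕ) : ℤ) = w + -t := Int.toNat_of_nonneg h5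
  rw [← h6] at h4
  exact_mod_cast h4

end Pool.Agent.H92.ST
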